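import Pool.Agent.N612.MS.Base

set_option autoImplicit false

/-!
# The branches of perfect schemes
-/

namespace Pool.Agent.N612.MS

theorem res_snoc (y : C) (n : ℕ) : res y (n + 1) = res y n ++ [y n] := by
  simp [res, List.range_succ]

theorem le_length {e : List Bool → List Bool} (h1 : ∀ t b, e t <+: e (t ++ [b]))
    (h2 : ∀ t, ¬ e (t ++ [false]) <+: e (t ++ [true]) ∧ ¬ e (t ++ [true]) <+: e (t ++ [false]))
    (t : List Bool) : t.length ≤ (e t).length := by
  induction t using List.reverseRecOn with
  | nil => simp
  | append_singleton t b ih =>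
    have hlt : (e t).length < (e (t ++ [b])).length := by
      rcases lt_or_eq_of_le (h1 t b).length_le with h | h
      · exact h
      · exfalso
        have he : e t = e (t ++ [b]) := (h1 t b).eq_of_length h
        cases b
        · apply (h2 t).1
          rw [← he]
          exact h1 t true
        · apply (h2 t).2
          rw [← he]
          exact h1 t false
    rw [List.length_append, List.length_singleton]
    omega

theorem mono_prefix {e : List Bool → List Bool} (h1 : ∀ t b, e t <+: e (t ++ [b]))
    {s t : List Bool} (h : s <+: t) : e s <+: e t := by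
  obtain ⟨r, rfl⟩ := h
  induction r using List.reverseRecOn with
  | nil => rw [List.append_nil]
  | append_singleton r b ih =>
    rw [← List.append_assoc]
    exact ih.trans (h1 _ b)

theorem br_mem {e : List Bool → List Bool} (h1 : ∀ t b, e t <+: e (t ++ [b]))
    (h2 : ∀ t, ¬ e (t ++ [false]) <+: e (t ++ [true]) ∧ ¬ e (t ++ [true]) <+: e (t ++ [false]))
    (y : C) (k : ℕ) : br e y ∈ N (e (res y k)) := by
  rw [mem_N]
  intro i hi
  have h3 : i < (e (res y (i + 1))).length := by
    have := le_length h1 h2 (res y (i + 1))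
    rw [res_length] at this
    omega
  have h4 : br e y i = (e (res y (i + 1)))[i] := by
    show (e (res y (i + 1))).getD i false = _
    rw [List.getD_eq_getElem?_getD, List.getElem?_eq_getElem h3]
    rfl
  rw [h4]
  rcases le_total k (i + 1) with h | h
  · exact ((mono_prefix h1 (res_prefix y h)).getElem hi).symm
  · exact (mono_prefix h1 (res_prefix y h)).getElem h3

theorem br_inj {e : List Bool → List Bool} (h1 : ∀ t b, e t <+: e (t ++ [b]))
    (h2 : ∀ t, ¬ e (t ++ [false]) <+: e (t ++ [true]) ∧ ¬ e (t ++ [true]) <+: e (t ++ [false])) :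
    Function.Injective (br e) := by
  classical
  intro y y' hyy
  by_contra hne
  have hex : ∃ n, y n ≠ y' n := by
    by_contra hcon
    push Not at hcon
    exact hne (funext hcon)
  obtain ⟨n, hn, hmin⟩ : ∃ n, y n ≠ y' n ∧ ∀ m < n, y m = y' m :=
    ⟨Nat.find hex, Nat.find_spec hex, fun m hm => by
      have := Nat.find_min hex hm
      push Not at this
      exact this⟩
  have hres : res y n = res y' n := by
    unfold res
    apply List.map_congr_left
    intro m hm
    exact hmin m (List.mem_range.1 hm)
  have ha := br_mem h1 h2 y (n + 1)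
  have hb := br_mem h1 h2 y' (n + 1)
  rw [← hyy] at hb
  rw [res_snoc] at ha hb
  rw [← hres] at hb
  have hc := comparable ha hb
  have hd := h2 (res y n)
  revert hc hn hd
  cases y n <;> cases y' n <;> intro hn hc hd
  · exact hn rfl
  · exact hc.elim hd.1 hd.2
  · exact hc.elim hd.2 hd.1
  · exact hn rfl

theorem br_meas {E : C → List Bool → List Bool} (h : ∀ t u, MeasurableSet {c | E c t = u})
    {η : C → C} (hη : Measurable η) : Measurable fun c => br (E c) (η c) := by
  rw [measurable_pi_iff]
  intro n
  apply measurable_to_bool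
  have he : (fun c => br (E c) (η c) n) ⁻¹' {true} = ⋃ t : List Bool, ⋃ u : List Bool,
      ⋃ _ : t.length = n + 1 ∧ u.getD n false = true, ({c | η c ∈ N t} ∩ {c | E c t = u}) := by
    ext c
    simp only [Set.mem_preimage, Set.mem_singleton_iff, Set.mem_iUnion]
    constructor
    · intro hc
      exact ⟨res (η c) (n + 1), E c (res (η c) (n + 1)), ⟨res_length _ _, hc⟩, mem_N_res _ _, rfl⟩
    · rintro ⟨t, u, ⟨ht, hu⟩, hc1, hc2⟩
      have h3 : res (η c) t.length = t := hc1
      have h4 : E c t = u := hc2
      show (E c (res (η c) (n + 1))).getD n false = true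
      rw [← ht, h3, h4]
      exact hu
  rw [he]
  refine MeasurableSet.iUnion fun t => MeasurableSet.iUnion fun u => MeasurableSet.iUnion fun _ =>
    MeasurableSet.inter ?_ (h t u)
  exact hη (measurableSet_N t)

theorem small_meagre {p : List Bool} {E : C → List Bool → List Bool} (h : Cr p E) {η : C → C}
    (hη : Measurable η) {M : Set C} (hM : IsMeagre M) :
    IsMeagre {c | c ∈ N p ∧ br (E c) (η c) ∈ M} := by
  obtain ⟨S, hS1, hS2, hS3⟩ := isMeagre_iff_countable_union_isNowhereDense.1 hM
  have : Countable S := hS2.to_subtype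
  have h1 : IsMeagre (⋃ K : S, {c | c ∈ N p ∧ br (E c) (η c) ∈ closure (K : Set C)}) :=
    isMeagre_iUnion fun K => h.small η hη (closure (K : Set C)) isClosed_closure (hS1 K.1 K.2)
  refine h1.mono ?_
  rintro c ⟨hc1, hc2⟩
  obtain ⟨K, hK, hcK⟩ := hS3 hc2
  exact Set.mem_iUnion.2 ⟨⟨K, hK⟩, hc1, subset_closure hcK⟩

/-- if `u` is an initial segment of the branch, then it is reached at the level `u.length` -/
theorem prefix_of_br_mem {e : List Bool → List Bool} (h1 : ∀ t b, e t <+: e (t ++ [b]))
    (h2 : ∀ t, ¬ e (t ++ [false]) <+: e (t ++ [true]) ∧ ¬ e (t ++ [true]) <+: e (t ++ [false]))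
    {y : C} {u t : List Bool} (h : br e y ∈ N u) (ht : y ∈ N t) (hk : u.length ≤ t.length) :
    u <+: e t := by
  have h3 : res y t.length = t := ht
  have h4 := br_mem h1 h2 y t.length
  rw [h3] at h4
  rcases comparable h h4 with h5 | h5
  · exact h5
  · have h6 := le_length h1 h2 t
    have h7 := h5.length_le
    rw [h5.eq_of_length (by omega)]

end Pool.Agent.N612.MS
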