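import Pool.Agent.N612.MS.Stm

set_option autoImplicit false

/-!
# Basic facts
-/

namespace Pool.Agent.N612.MS

theorem mem_N {p : List Bool} {c : C} : c ∈ N p ↔ ∀ (i : ℕ) (h : i < p.length), c i = p[i] := by
  constructor
  · intro h i hi
    have h1 : res c p.length = p := h
    have h2 : (res c p.length)[i]? = p[i]? := by rw [h1]
    simp only [res, List.getElem?_map, List.getElem?_range hi, Option.map_some,
      List.getElem?_eq_getElem hi, Option.some.injEq] at h2
    exact h2
  · intro h
    show res c p.length = p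
    apply List.ext_getElem
    · simp [res]
    · intro n h1 h2
      simp only [res, List.getElem_map, List.getElem_range]
      exact h n h2

theorem res_length (c : C) (n : ℕ) : (res c n).length = n := by simp [res]

theorem mem_N_res (c : C) (n : ℕ) : c ∈ N (res c n) := by
  show res c (res c n).length = res c n
  rw [res_length]

theorem mem_N_res_iff {c c' : C} {n : ℕ} : c' ∈ N (res c n) ↔ ∀ i, i < n → c' i = c i := by
  rw [mem_N]
  constructor
  · intro h i hi
    have := h i (by rw [res_length]; exact hi)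
    rw [this]
    simp [res]
  · intro h i hi
    rw [res_length] at hi
    rw [h i hi]
    simp [res]

theorem N_eq_iInter (p : List Bool) :
    N p = ⋂ i : Fin p.length, (fun c : C => c i) ⁻¹' {p[i]} := by
  ext c
  rw [mem_N]
  simp only [Set.mem_iInter, Set.mem_preimage, Set.mem_singleton_iff]
  constructor
  · intro h i
    exact h i i.2
  · intro h i hi
    exact h ⟨i, hi⟩

theorem isOpen_N (p : List Bool) : IsOpen (N p) := by
  rw [N_eq_iInter]
  exact isOpen_iInter_of_finite fun i => (isOpen_discrete _).preimage (continuous_apply _)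

theorem isClosed_N (p : List Bool) : IsClosed (N p) := by
  rw [N_eq_iInter]
  exact isClosed_iInter fun i => (isClosed_discrete _).preimage (continuous_apply _)

theorem measurableSet_N (p : List Bool) : MeasurableSet (N p) := (isOpen_N p).measurableSet

theorem N_mono {p q : List Bool} (h : p <+: q) : N q ⊆ N p := by
  intro c hc
  rw [mem_N] at hc ⊢
  intro i hi
  rw [hc i (lt_of_lt_of_le hi h.length_le)]
  exact (h.getElem hi).symm

theorem N_nonempty (p : List Bool) : (N p).Nonempty := by
  refine ⟨fun n => p.getD n false, ?_⟩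
  rw [mem_N]
  intro i hi
  simp [List.getD, hi]

theorem N_nil : N [] = Set.univ := by
  ext c
  rw [mem_N]
  simp

theorem res_prefix (c : C) {m n : ℕ} (h : m ≤ n) : res c m <+: res c n := by
  have e : res c m = (res c n).take m := by
    unfold res
    rw [← List.map_take, List.take_range, min_eq_left h]
  rw [e]
  exact List.take_prefix _ _

/-- two initial segments of the same point are comparable -/
theorem comparable {p q : List Bool} {c : C} (h1 : c ∈ N p) (h2 : c ∈ N q) :
    p <+: q ∨ q <+: p := by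
  have e1 : res c p.length = p := h1
  have e2 : res c q.length = q := h2
  rcases le_total p.length q.length with h | h
  · left
    rw [← e1, ← e2]
    exact res_prefix c h
  · right
    rw [← e1, ← e2]
    exact res_prefix c h

theorem not_mem_of_inc {p q : List Bool} {c : C} (h : Inc p q) (h1 : c ∈ N p) : c ∉ N q :=
  fun h2 => (comparable h1 h2).elim h.1 h.2

theorem prefix_of_mem {p : List Bool} {c : C} {n : ℕ} (h : c ∈ N p) (hn : p.length ≤ n) :
    p <+: res c n := by
  have e1 : res c p.length = p := h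
  have := res_prefix c hn
  rwa [e1] at this

theorem exists_N {U : Set C} (hU : IsOpen U) {c : C} (hc : c ∈ U) (m : ℕ) :
    ∃ n, m ≤ n ∧ N (res c n) ⊆ U := by
  obtain ⟨I, u, hu, hsub⟩ := isOpen_pi_iff.1 hU c hc
  refine ⟨max m (I.sup id + 1), le_max_left _ _, fun c' hc' => hsub ?_⟩
  rw [mem_N_res_iff] at hc'
  intro i hi
  have hle : i ≤ I.sup id := Finset.le_sup (f := id) hi
  rw [hc' i (lt_of_lt_of_le (Nat.lt_succ_of_le hle) (le_max_right _ _))]
  exact (hu i hi).2

/-- a point of `N p` and of an open set has an initial segment that extends `p` -/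
theorem exists_ext {U : Set C} (hU : IsOpen U) {p : List Bool} (h : (N p ∩ U).Nonempty) :
    ∃ q, p <+: q ∧ N q ⊆ U := by
  obtain ⟨c, hc, hcU⟩ := h
  obtain ⟨n, hn, hsub⟩ := exists_N hU hcU p.length
  exact ⟨res c n, prefix_of_mem hc hn, hsub⟩

theorem not_meagre_N (p : List Bool) : ¬ IsMeagre (N p) :=
  not_isMeagre_of_isOpen (isOpen_N p) (N_nonempty p)

theorem exists_mem {p : List Bool} {M : Set C} (hM : IsMeagre M) : ∃ c ∈ N p, c ∉ M := by
  by_contra h
  push Not at h
  exact not_meagre_N p (hM.mono h)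

/-- the Baire property -/
theorem bp {B : Set C} (hB : MeasurableSet B) {p : List Bool} (h : ¬ IsMeagre (N p ∩ B)) :
    ∃ q, p <+: q ∧ IsMeagre (N q \ B) := by
  obtain ⟨U, hU, hBU⟩ := hB.residualEq_isOpen
  have hM : IsMeagre {c : C | ¬ (c ∈ B ↔ c ∈ U)} := by
    unfold IsMeagre
    filter_upwards [hBU] with c hc
    rw [Set.mem_compl_iff, Set.mem_setOf_eq, not_not]
    exact Iff.of_eq hc
  have hne : (N p ∩ U).Nonempty := by
    by_contra hne
    rw [Set.not_nonempty_iff_eq_empty] at hne
    apply h
    refine hM.mono ?_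
    rintro c ⟨hc1, hc2⟩ hiff
    have : c ∈ N p ∩ U := ⟨hc1, hiff.1 hc2⟩
    rw [hne] at this
    exact this
  obtain ⟨q, hq, hsub⟩ := exists_ext hU hne
  refine ⟨q, hq, hM.mono ?_⟩
  rintro c ⟨hc1, hc2⟩ hiff
  exact hc2 (hiff.2 (hsub hc1))

/-- a set that is meagre in a dense set of basic open sets is meagre -/
theorem meagre_of_dense {B : Set C} {p : List Bool}
    (h : ∀ q, p <+: q → ∃ q', q <+: q' ∧ IsMeagre (N q' ∩ B)) : IsMeagre (N p ∩ B) := by
  set S : Set (List Bool) := {q | IsMeagre (N q ∩ B)} with hS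
  set U : Set C := ⋃ q : S, N q with hUdef
  have hU : IsOpen U := isOpen_iUnion fun q => isOpen_N q
  have h1 : IsMeagre (⋃ q : S, N q ∩ B) := isMeagre_iUnion fun q => q.2
  have hcl : IsClosed (N p \ U) := (isClosed_N p).sdiff hU
  have h2 : IsMeagre (N p \ U) := by
    apply IsNowhereDense.isMeagre
    unfold IsNowhereDense
    rw [hcl.closure_eq, Set.eq_empty_iff_forall_notMem]
    intro c hc
    obtain ⟨n, hn, hsub⟩ := exists_N isOpen_interior hc p.length
    have hcp : c ∈ N p := (interior_subset hc).1
    obtain ⟨q', hq', hm⟩ := h (res c n) (prefix_of_mem hcp hn)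
    obtain ⟨x, hx⟩ := N_nonempty q'
    have hx1 : x ∈ N p \ U := interior_subset (hsub (N_mono hq' hx))
    exact hx1.2 (Set.mem_iUnion.2 ⟨⟨q', hm⟩, hx⟩)
  refine (h1.union h2).mono ?_
  rintro c ⟨hc1, hc2⟩
  by_cases hc : c ∈ U
  · left
    obtain ⟨q, hq⟩ := Set.mem_iUnion.1 hc
    exact Set.mem_iUnion.2 ⟨q, hq, hc2⟩
  · right
    exact ⟨hc1, hc⟩

end Pool.Agent.N612.MS
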