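import Pool.Agent.N612.MS.Base

set_option autoImplicit false

/-!
# A Borel perfect scheme inside a Borel family of perfect trees
-/

namespace Pool.Agent.N612.MS

namespace SCH

/-- the pair of strings with the code `n` -/
def dec (n : ℕ) : List Bool × List Bool := (Encodable.decode n).getD ([], [])

theorem dec_encode (p : List Bool × List Bool) : dec (Encodable.encode p) = p := by
  unfold dec
  rw [Encodable.encodek]
  rfl

/-- the code `n` is a pair of incompatible extensions of `w` in the tree `T` -/
def P (T : C) (w : List Bool) (n : ℕ) : Prop :=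
  w <+: (dec n).1 ∧ w <+: (dec n).2 ∧ T (Encodable.encode (dec n).1) = true ∧
    T (Encodable.encode (dec n).2) = true ∧ ¬ (dec n).1 <+: (dec n).2 ∧ ¬ (dec n).2 <+: (dec n).1

/-- a component of the pair -/
def sel (b : Bool) (n : ℕ) : List Bool := if b = true then (dec n).2 else (dec n).1

open Classical in
/-- the step of the construction -/
noncomputable def step (T : C) (w : List Bool) (b : Bool) : List Bool :=
  if h : ∃ n, P T w n then sel b (Nat.find h) else w ++ [b]

theorem step_eq (T : C) (w : List Bool) (b : Bool) (u : List Bool) :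
    step T w b = u ↔ ((∀ n, ¬ P T w n) ∧ w ++ [b] = u) ∨
      ∃ n, P T w n ∧ (∀ m, m < n → ¬ P T w m) ∧ sel b n = u := by
  classical
  by_cases h : ∃ n, P T w n
  · have h1 : step T w b = sel b (Nat.find h) := by
      unfold step
      rw [dif_pos h]
    rw [h1]
    constructor
    · intro h2
      exact Or.inr ⟨Nat.find h, Nat.find_spec h, fun m hm => Nat.find_min h hm, h2⟩
    · rintro (⟨h2, _⟩ | ⟨n, h2, h3, h4⟩)
      · obtain ⟨n, hn⟩ := h
        exact absurd hn (h2 n)
      · rw [(Nat.find_eq_iff h).mpr ⟨h2, h3⟩]
        exact h4
  · have h1 : step T w b = w ++ [b] := by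
      unfold step
      rw [dif_neg h]
    rw [h1]
    constructor
    · intro h2
      exact Or.inl ⟨fun n hn => h ⟨n, hn⟩, h2⟩
    · rintro (⟨_, h2⟩ | ⟨n, h2, _⟩)
      · exact h2
      · exact absurd ⟨n, h2⟩ h

theorem step_cases (T : C) (w : List Bool) :
    (∃ n, P T w n ∧ ∀ b, step T w b = sel b n) ∨
      ((∀ n, ¬ P T w n) ∧ ∀ b, step T w b = w ++ [b]) := by
  classical
  by_cases h : ∃ n, P T w n
  · left
    refine ⟨Nat.find h, Nat.find_spec h, fun b => ?_⟩
    unfold step
    rw [dif_pos h]
  · right
    refine ⟨fun n hn => h ⟨n, hn⟩, fun b => ?_⟩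
    unfold step
    rw [dif_neg h]

theorem step_mono (T : C) (w : List Bool) (b : Bool) : w <+: step T w b := by
  rcases step_cases T w with ⟨n, hn, h⟩ | ⟨_, h⟩
  · rw [h b]
    unfold sel
    split_ifs
    · exact hn.2.1
    · exact hn.1
  · rw [h b]
    exact List.prefix_append _ _

theorem step_inc (T : C) (w : List Bool) :
    ¬ step T w false <+: step T w true ∧ ¬ step T w true <+: step T w false := by
  rcases step_cases T w with ⟨n, hn, h⟩ | ⟨_, h⟩
  · rw [h false, h true]
    unfold sel
    exact ⟨hn.2.2.2.2.1, hn.2.2.2.2.2⟩
  · rw [h false, h true, List.prefix_append_right_inj, List.prefix_append_right_inj]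
    constructor <;> decide

theorem step_tree {T : C} (hT : IsPerf T) {w : List Bool}
    (hw : T (Encodable.encode w) = true) (b : Bool) : T (Encodable.encode (step T w b)) = true := by
  rcases step_cases T w with ⟨n, hn, h⟩ | ⟨h, _⟩
  · rw [h b]
    unfold sel
    split_ifs
    · exact hn.2.2.2.1
    · exact hn.2.2.1
  · exfalso
    obtain ⟨u, v, h1, h2, h3, h4, h5, h6⟩ := hT.2.2 w hw
    apply h (Encodable.encode (u, v))
    unfold P
    rw [dec_encode]
    exact ⟨h1, h2, h3, h4, h5, h6⟩

theorem meas_P {T : C → C} (hT : Measurable T) (w : List Bool) (n : ℕ) :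
    Measurable fun c => P (T c) w n := by
  unfold P
  exact measurable_const.and (measurable_const.and ((measurable_bit hT _ _).and
    ((measurable_bit hT _ _).and measurable_const)))

theorem meas_step {T : C → C} (hT : Measurable T) (w : List Bool) (b : Bool) (u : List Bool) :
    Measurable fun c => step (T c) w b = u := by
  simp only [step_eq]
  exact ((Measurable.forall fun n => (meas_P hT w n).not).and measurable_const).or
    (Measurable.exists fun n => (meas_P hT w n).and ((Measurable.forall fun m =>
      measurable_const.imp (meas_P hT w m).not).and measurable_const))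

end SCH

open SCH in
theorem scheme {p : List Bool} {T : C → C} (hT : Measurable T)
    (h : IsMeagre {c | c ∈ N p ∧ ¬ IsPerf (T c)}) :
    ∃ E : C → List Bool → List Bool, (∀ t u, MeasurableSet {c | E c t = u}) ∧
      (∀ c t b, E c t <+: E c (t ++ [b])) ∧
      (∀ c t, ¬ E c (t ++ [false]) <+: E c (t ++ [true]) ∧
        ¬ E c (t ++ [true]) <+: E c (t ++ [false])) ∧
      ∀ c, IsPerf (T c) → ∀ t, T c (Encodable.encode (E c t)) = true := by
  have _ := h
  let E : C → List Bool → List Bool := fun c t => t.foldl (fun w b => step (T c) w b) []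
  have hE : ∀ c t b, E c (t ++ [b]) = step (T c) (E c t) b := by
    intro c t b
    simp only [E, List.foldl_append, List.foldl_cons, List.foldl_nil]
  refine ⟨E, ?_, ?_, ?_, ?_⟩
  · intro t
    induction t using List.reverseRecOn with
    | nil =>
      intro u
      exact MeasurableSet.const (([] : List Bool) = u)
    | append_singleton t b ih =>
      intro u
      refine measurableSet_setOfPred.2 ?_
      have h1 : ∀ c, (E c (t ++ [b]) = u) = ∃ w, E c t = w ∧ step (T c) w b = u := by
        intro c
        apply propext
        rw [hE]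
        constructor
        · intro h2
          exact ⟨_, rfl, h2⟩
        · rintro ⟨w, h2, h3⟩
          rw [h2]
          exact h3
      simp only [h1]
      exact Measurable.exists fun w => (measurableSet_setOfPred.1 (ih w)).and (meas_step hT w b u)
  · intro c t b
    rw [hE]
    exact step_mono _ _ _
  · intro c t
    rw [hE, hE]
    exact step_inc _ _
  · intro c hc t
    induction t using List.reverseRecOn with
    | nil => exact hc.1
    | append_singleton t b ih =>
      rw [hE]
      exact step_tree hc ih b

end Pool.Agent.N612.MS
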