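import Pool.Agent.N612.MS.RED
import Pool.Agent.N612.MS.SCH
import Pool.Agent.N612.MS.BR

set_option autoImplicit false

/-!
# Combination: from the reduction and the scheme to the structure `Cr` (helper51)
-/

namespace Pool.Agent.N612.MS

/-- the tree of a perfect set is closed under initial segments -/
theorem CRX.tree_prefix {T : C} (h : IsPerf T) (s w : List Bool) :
    T (Encodable.encode (s ++ w)) = true → T (Encodable.encode s) = true := by
  induction w using List.reverseRecOn with
  | nil =>
    intro h1
    rwa [List.append_nil] at h1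
  | append_singleton w b ih =>
    intro h1
    rw [← List.append_assoc] at h1
    exact ih (h.2.1 _ _ h1)

theorem exists_cr {p : List Bool} {v : ℕ → Nm}
    (h : ¬ Forces p (Fm.neg (Fm.ex 3 (Fm.and (Fm.perf 3)
      (Fm.all 0 (Fm.imp (Fm.branch 3 0) Fm.chi))))) v) :
    ∃ (p' : List Bool) (E : C → List Bool → List Bool), Cr p' E := by
  obtain ⟨p', T, hT, hperf, hx⟩ := red h
  obtain ⟨E, hm, hmono, hinc, htree⟩ := scheme hT hperf
  have key : ∀ η : C → C, Measurable η →
      IsMeagre {c | c ∈ N p' ∧ ¬ IsBr (T c) (br (E c) (η c))} := by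
    intro η hη
    refine hperf.mono ?_
    rintro c ⟨hc, hn⟩
    refine ⟨hc, fun hP => hn ?_⟩
    intro s hs
    obtain ⟨w, hw⟩ := prefix_of_br_mem (fun t b => hmono c t b) (hinc c) hs
      (mem_N_res (η c) s.length) (le_of_eq (res_length _ _).symm)
    refine CRX.tree_prefix hP s w ?_
    rw [hw]
    exact htree c hP _
  exact ⟨p', E, hm, hmono, hinc,
    fun η hη K hK hK' => (hx _ (br_meas hm hη) (key η hη)).1 K hK hK',
    fun η hη q hq => (hx _ (br_meas hm hη) (key η hη)).2 q hq⟩

end Pool.Agent.N612.MS
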