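import Pool.Agent.N612.MS.Base

set_option autoImplicit false

/-!
# Concatenation of blocks (project MS of helper612, part ETA, by helper400)
-/

namespace Pool.Agent.N612.MS

theorem et_nil (a : A) (t : List Bool) : et a t [] = t := by
  simp [et]

theorem et_snoc (a : A) (t r : List Bool) (x : Bool) :
    et a t (r ++ [x]) = et a t r ++ blk (a r) := by
  unfold et
  rw [List.length_append, List.length_singleton, List.range_succ, List.map_append,
    List.flatten_append, ← List.append_assoc]
  congr 1
  · congr 2
    apply List.map_congr_left
    intro i hi
    rw [List.mem_range] at hi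
    rw [List.take_append_of_le_length hi.le]
  · simp

theorem et_append (a : A) (t s r : List Bool) :
    et a t (s ++ r) = et (sh s a) (et a t s) r := by
  induction r using List.reverseRecOn with
  | nil => rw [List.append_nil, et_nil]
  | append_singleton r x ih =>
    rw [← List.append_assoc, et_snoc, et_snoc, ih]
    rfl

theorem et_mono (a : A) (t : List Bool) {r r' : List Bool} (h : r <+: r') :
    et a t r <+: et a t r' := by
  obtain ⟨w, rfl⟩ := h
  induction w using List.reverseRecOn with
  | nil => rw [List.append_nil]
  | append_singleton w x ih =>
    rw [← List.append_assoc, et_snoc]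
    exact ih.trans (List.prefix_append _ _)

theorem et_congr {a b : A} {t r : List Bool} (h : ∀ i < r.length, blk (a (r.take i)) =
    blk (b (r.take i))) : et a t r = et b t r := by
  unfold et
  congr 2
  apply List.map_congr_left
  intro i hi
  exact h i (List.mem_range.1 hi)

theorem blk_encode (w : List Bool) : blk (Encodable.encode w) = w := by
  simp [blk]

theorem rel_prefix (s : List Bool) (c : C) {k l : ℕ} (h : k ≤ l) : rel s c k <+: rel s c l := by
  unfold rel
  exact (res_prefix c (by omega : s.length + k ≤ s.length + l)).drop s.length

theorem rel_length (s : List Bool) (c : C) (k : ℕ) : (rel s c k).length = k := by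
  unfold rel
  rw [List.length_drop, res_length]
  omega

theorem res_eq_append_rel {s : List Bool} {c : C} (hc : c ∈ N s) (k : ℕ) :
    res c (s.length + k) = s ++ rel s c k := by
  have h : s <+: res c (s.length + k) := prefix_of_mem hc (by omega)
  exact List.prefix_iff_eq_append.1 h |>.symm

/-- the string `r` is a relative initial segment -/
theorem rel_eq {s r : List Bool} {c : C} (hc : c ∈ N (s ++ r)) : rel s c r.length = r := by
  have h : res c (s ++ r).length = s ++ r := hc
  rw [List.length_append] at h
  unfold rel
  rw [h, List.drop_left]

theorem ev_mem (a : A) (s t : List Bool) (c : C) (k : ℕ) :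
    ev a s t c ∈ N (et a t (rel s c k)) := by
  classical
  rw [mem_N]
  intro i hi
  have key : (∃ k', (et a t (rel s c k'))[i]? = some true) ↔ (et a t (rel s c k))[i] = true := by
    constructor
    · rintro ⟨k', hk'⟩
      rcases le_total k k' with h | h
      · obtain ⟨w, hw⟩ := et_mono a t (rel_prefix s c h)
        rw [← hw, List.getElem?_append_left hi, List.getElem?_eq_getElem hi] at hk'
        exact Option.some.inj hk'
      · obtain ⟨w, hw⟩ := et_mono a t (rel_prefix s c h)
        have hlt : i < (et a t (rel s c k')).length := by
          by_contra hcon
          rw [List.getElem?_eq_none (not_lt.1 hcon)] at hk'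
          exact absurd hk' (by simp)
        have h2 : (et a t (rel s c k))[i]? = some true := by
          rw [← hw, List.getElem?_append_left hlt, hk']
        rw [List.getElem?_eq_getElem hi] at h2
        exact Option.some.inj h2
    · intro h
      exact ⟨k, by rw [List.getElem?_eq_getElem hi, h]⟩
  unfold ev
  cases hb : (et a t (rel s c k))[i] with
  | true => exact decide_eq_true (key.2 hb)
  | false =>
    apply decide_eq_false
    rw [key, hb]
    simp

theorem measurable_res_pred (m : ℕ) (P : List Bool → Prop) :
    MeasurableSet {c : C | P (res c m)} := by
  have h : {c : C | P (res c m)} = ⋃ w ∈ {w : List Bool | P w ∧ w.length = m}, N w := by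
    ext c
    simp only [Set.mem_iUnion, Set.mem_ofPred_eq, exists_prop]
    constructor
    · intro hc
      exact ⟨res c m, ⟨hc, res_length c m⟩, mem_N_res c m⟩
    · rintro ⟨w, ⟨h1, h2⟩, h3⟩
      have h4 : res c w.length = w := h3
      rw [← h2, h4]
      exact h1
  rw [h]
  exact MeasurableSet.biUnion (Set.to_countable _) fun w _ => measurableSet_N w

theorem ev_meas (a : A) (s t : List Bool) : Measurable (ev a s t) := by
  classical
  refine measurable_pi_iff.2 fun n => measurable_to_bool ?_
  have h : (fun c => ev a s t c n) ⁻¹' {true} =
      ⋃ k, {c : C | (et a t (rel s c k))[n]? = some true} := by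
    ext c
    simp only [Set.mem_preimage, Set.mem_singleton_iff, Set.mem_iUnion, Set.mem_ofPred_eq, ev,
      decide_eq_true_eq]
  rw [h]
  refine MeasurableSet.iUnion fun k => ?_
  exact measurable_res_pred (s.length + k)
    (fun w => (et a t (w.drop s.length))[n]? = some true)

end Pool.Agent.N612.MS
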