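import Pool.Agent.N612.MS.Stm

set_option autoImplicit false

/-!
# The space of block functions: the shift is open, localisation of comeagreness
-/

namespace Pool.Agent.N612.MS

namespace OPEN

theorem nbhd {U : Set A} (hU : IsOpen U) {a : A} (ha : a ∈ U) :
    ∃ D : Finset (List Bool), ∀ b : A, (∀ r ∈ D, b r = a r) → b ∈ U := by
  obtain ⟨D, u, hu, hD⟩ := isOpen_pi_iff.1 hU a ha
  refine ⟨D, fun b hb => hD ?_⟩
  intro r hr
  rw [hb r hr]
  exact (hu r hr).2

theorem isOpen_of {U : Set A} (h : ∀ a ∈ U, ∃ D : Finset (List Bool), ∀ b : A,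
    (∀ r ∈ D, b r = a r) → b ∈ U) : IsOpen U := by
  refine isOpen_pi_iff.2 fun a ha => ?_
  obtain ⟨D, hD⟩ := h a ha
  exact ⟨D, fun r => {a r}, fun r _ => ⟨isOpen_discrete _, rfl⟩, fun b hb => hD b fun r hr => hb r hr⟩

end OPEN

open OPEN

theorem sh_open (s : List Bool) : Continuous (sh s) ∧ IsOpenMap (sh s) := by
  classical
  refine ⟨continuous_pi fun r => continuous_apply (s ++ r), fun U hU => isOpen_of ?_⟩
  rintro _ ⟨a, ha, rfl⟩
  obtain ⟨D, hD⟩ := nbhd hU ha
  refine ⟨(D.filter fun w => s <+: w).image fun w => w.drop s.length, fun b hb => ?_⟩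
  refine ⟨fun w => if s <+: w then b (w.drop s.length) else a w, hD _ fun w hw => ?_, ?_⟩
  · by_cases h : s <+: w
    · obtain ⟨r, rfl⟩ := h
      have h1 : s <+: s ++ r := List.prefix_append s r
      rw [if_pos h1, hb _ (Finset.mem_image_of_mem _ (Finset.mem_filter.2 ⟨hw, h1⟩))]
      simp [sh]
    · rw [if_neg h]
  · funext r
    have h1 : s <+: s ++ r := List.prefix_append s r
    show (if s <+: s ++ r then b ((s ++ r).drop s.length) else a (s ++ r)) = b r
    rw [if_pos h1]
    simp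

theorem continuous_et (t r : List Bool) (w : List Bool) : IsOpen {a : A | et a t r = w} := by
  classical
  refine isOpen_of fun a ha => ?_
  refine ⟨(Finset.range r.length).image fun i => r.take i, fun b hb => ?_⟩
  have h1 : et b t r = et a t r := by
    unfold et
    congr 2
    refine List.map_congr_left fun i hi => ?_
    rw [hb _ (Finset.mem_image_of_mem _ (Finset.mem_range.2 (List.mem_range.1 hi)))]
  show et b t r = w
  rw [h1]
  exact ha

/-- a set that is comeagre in a dense set of open sets is comeagre -/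
theorem comeagre_of_dense {P : Set A} (h : ∀ (a : A) (D : Finset (List Bool)),
    ∃ W : Set A, IsOpen W ∧ W.Nonempty ∧ (∀ b ∈ W, ∀ r ∈ D, b r = a r) ∧ IsMeagre (W \ P)) :
    P ∈ residual A := by
  have key : IsMeagre Pᶜ := by
    obtain ⟨T, hT, hTS, hTU⟩ := TopologicalSpace.isOpen_sUnion_countable
      {W : Set A | IsOpen W ∧ IsMeagre (W \ P)} fun W hW => hW.1
    have h1 : IsMeagre (⋃ W ∈ T, (W \ P)) := isMeagre_biUnion hT fun W hW => (hTS hW).2
    have h2 : IsMeagre (⋃₀ {W : Set A | IsOpen W ∧ IsMeagre (W \ P)})ᶜ := by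
      apply IsNowhereDense.isMeagre
      have hcl : IsClosed (⋃₀ {W : Set A | IsOpen W ∧ IsMeagre (W \ P)})ᶜ :=
        (isOpen_sUnion fun W hW => hW.1).isClosed_compl
      rw [hcl.isNowhereDense_iff, Set.eq_empty_iff_forall_notMem]
      intro x hx
      obtain ⟨D, hD⟩ := nbhd isOpen_interior hx
      obtain ⟨W, hW1, ⟨y, hy⟩, hW3, hW4⟩ := h x D
      have h3 := interior_subset (hD y (hW3 y hy))
      exact h3 (Set.mem_sUnion.2 ⟨W, ⟨hW1, hW4⟩, hy⟩)
    refine (h2.union h1).mono ?_
    intro x hx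
    by_cases hx' : x ∈ ⋃₀ {W : Set A | IsOpen W ∧ IsMeagre (W \ P)}
    · right
      rw [← hTU] at hx'
      obtain ⟨W, hW, hxW⟩ := hx'
      exact Set.mem_biUnion hW ⟨hxW, hx⟩
    · exact Or.inl hx'
  have h2 : Pᶜᶜ ∈ residual A := key
  rwa [compl_compl] at h2

end Pool.Agent.N612.MS
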