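import Pool.Agent.N612.MS.Base
import Pool.Agent.N612.MS.ETA
import Pool.Agent.N612.MS.OPEN

set_option autoImplicit false

/-!
# DENSE: comeagrely many block functions give a non-injective function below `q` (helper49)
-/

namespace Pool.Agent.N612.MS

namespace DenseAux

theorem not_both {s0 s1 w : List Bool} (h : Inc s0 s1) (h0 : s0 <+: w) (h1 : s1 <+: w) : False := by
  rcases List.prefix_or_prefix_of_prefix h0 h1 with h2 | h2
  · exact h.1 h2
  · exact h.2 h2

theorem et_const {a : A} {t q1 s : List Bool} (h0 : et a [] q1 = t)
    (h : ∀ w, q1 <+: w → w <+: s → w ≠ s → blk (a w) = []) (hqs : q1 <+: s) :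
    et a [] s = t := by
  have key : ∀ y : List Bool, q1 ++ y <+: s → et a [] (q1 ++ y) = t := by
    intro y
    induction y using List.reverseRecOn with
    | nil =>
      intro _
      rw [List.append_nil]
      exact h0
    | append_singleton y b ih =>
      intro hy
      have h1 : q1 ++ y <+: q1 ++ (y ++ [b]) := by
        rw [← List.append_assoc]
        exact List.prefix_append _ _
      rw [← List.append_assoc, et_snoc, ih (h1.trans hy),
        h (q1 ++ y) (List.prefix_append _ _) (h1.trans hy) ?_, List.append_nil]
      intro he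
      have h2 := hy.length_le
      rw [← he] at h2
      simp only [List.length_append, List.length_cons, List.length_nil] at h2
      omega
  obtain ⟨y, rfl⟩ := hqs
  exact key y List.prefix_rfl

theorem app_drop {t u : List Bool} (h : t <+: u) : t ++ u.drop t.length = u := by
  obtain ⟨y, rfl⟩ := h
  rw [List.drop_left]

open Classical in
/-- the block function -/
noncomputable def mk (a0 b : A) (q1 s0' s1' x0 x1 : List Bool) : A := fun w =>
  if s1' ++ [false] <+: w then b (w.drop (s1' ++ [false]).length)
  else if w = s1' then Encodable.encode x1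
  else if w = s0' then Encodable.encode x0
  else if q1 <+: w then Encodable.encode ([] : List Bool)
  else a0 w

end DenseAux

open DenseAux in
theorem dense {p : List Bool} {E : C → List Bool → List Bool} (h1 : PairS p E) (h2 : GoodS p E)
    (h3 : ∀ c t b, E c t <+: E c (t ++ [b])) {q : List Bool} (hq : p <+: q) :
    Pq E q ∈ residual A := by
  classical
  refine comeagre_of_dense fun a0 D => ?_
  obtain ⟨q1, hq1, hlen⟩ : ∃ q1 : List Bool, q <+: q1 ∧ ∀ r ∈ D, r.length < q1.length := by
    refine ⟨q ++ List.replicate (D.sup List.length + 1) false, List.prefix_append _ _,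
      fun r hr => ?_⟩
    rw [List.length_append, List.length_replicate]
    have := Finset.le_sup (f := List.length) hr
    omega
  obtain ⟨t, ht⟩ : ∃ t, t = et a0 [] q1 := ⟨_, rfl⟩
  obtain ⟨s0, s1, v, hs0, hs1, hinc, ⟨s1', t1, hs1', ht1, hm1⟩, hacc⟩ := h1 q1 t (hq.trans hq1)
  have hm1' : IsMeagre {c | c ∈ N (s1' ++ [false]) ∧ ¬ v <+: E c t1} := by
    refine hm1.mono ?_
    rintro c ⟨hc1, hc2⟩
    exact ⟨N_mono (List.prefix_append _ _) hc1, hc2⟩
  obtain ⟨v2, hv2, U, hU, hUne, hUm⟩ := h2 (s1' ++ [false]) t1 v
    (((hq.trans hq1).trans hs1).trans (hs1'.trans (List.prefix_append _ _))) hm1'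
  obtain ⟨s0', t0, hs0', ht0, hm0⟩ := hacc v2 hv2
  have hi0 : s0 <+: s0' ++ [false] := hs0'.trans (List.prefix_append _ _)
  have hi1 : s1 <+: s1' ++ [false] := hs1'.trans (List.prefix_append _ _)
  have hl1 : q1.length ≤ s1'.length := (hs1.trans hs1').length_le
  have hl0 : q1.length ≤ s0'.length := (hs0.trans hs0').length_le
  refine ⟨{a | ∀ r ∈ D, a r = a0 r} ∩ ({a | et a [] (s1' ++ [false]) = t1} ∩
    (sh (s1' ++ [false]) ⁻¹' U ∩ {a | et a [] (s0' ++ [false]) = t0})), ?_, ?_, ?_, ?_⟩
  · refine IsOpen.inter ?_ ((continuous_et _ _ _).inter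
      ((hU.preimage (sh_open _).1).inter (continuous_et _ _ _)))
    have e : {a : A | ∀ r ∈ D, a r = a0 r} = ⋂ r ∈ D, (fun a : A => a r) ⁻¹' {a0 r} := by
      ext a
      simp
    rw [e]
    exact isOpen_biInter_finset fun r _ => (isOpen_discrete _).preimage (continuous_apply r)
  · obtain ⟨b, hb⟩ := hUne
    have hshort : ∀ w : List Bool, w.length < q1.length →
        mk a0 b q1 s0' s1' (t0.drop t.length) (t1.drop t.length) w = a0 w := by
      intro w hw
      unfold mk
      rw [if_neg (fun h => by
          have := h.length_le
          rw [List.length_append] at this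
          omega), if_neg (fun h => by rw [h] at hw; omega), if_neg (fun h => by rw [h] at hw; omega),
        if_neg (fun h => by
          have := h.length_le
          omega)]
    have hq0 : et (mk a0 b q1 s0' s1' (t0.drop t.length) (t1.drop t.length)) [] q1 = t := by
      refine (et_congr fun i hi => ?_).trans ht.symm
      rw [hshort]
      rw [List.length_take]
      omega
    have hc1 : et (mk a0 b q1 s0' s1' (t0.drop t.length) (t1.drop t.length)) [] s1' = t := by
      refine et_const hq0 (fun w hw1 hw2 hw3 => ?_) (hs1.trans hs1')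
      unfold mk
      rw [if_neg (fun h => by
          have := (h.trans hw2).length_le
          rw [List.length_append, List.length_singleton] at this
          omega), if_neg hw3, if_neg (fun h => by
          rw [h] at hw2
          exact not_both hinc (hs0'.trans hw2) hs1'), if_pos hw1, blk_encode]
    have hc0 : et (mk a0 b q1 s0' s1' (t0.drop t.length) (t1.drop t.length)) [] s0' = t := by
      refine et_const hq0 (fun w hw1 hw2 hw3 => ?_) (hs0.trans hs0')
      unfold mk
      rw [if_neg (fun h => not_both hinc hs0' ((hi1.trans h).trans hw2)), if_neg (fun h => by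
          rw [h] at hw2
          exact not_both hinc hs0' (hs1'.trans hw2)), if_neg hw3, if_pos hw1, blk_encode]
    refine ⟨mk a0 b q1 s0' s1' (t0.drop t.length) (t1.drop t.length), ?_, ?_, ?_, ?_⟩
    · exact fun r hr => hshort r (hlen r hr)
    · change et _ [] (s1' ++ [false]) = t1
      rw [et_snoc, hc1]
      have e : mk a0 b q1 s0' s1' (t0.drop t.length) (t1.drop t.length) s1' =
          Encodable.encode (t1.drop t.length) := by
        unfold mk
        rw [if_neg (fun h => by
          have := h.length_le
          rw [List.length_append, List.length_singleton] at this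
          omega), if_pos rfl]
      rw [e, blk_encode, app_drop ht1]
    · change sh (s1' ++ [false]) _ ∈ U
      have e : sh (s1' ++ [false]) (mk a0 b q1 s0' s1' (t0.drop t.length) (t1.drop t.length)) =
          b := by
        funext r
        unfold sh mk
        rw [if_pos (List.prefix_append _ _), List.drop_left]
      rw [e]
      exact hb
    · change et _ [] (s0' ++ [false]) = t0
      rw [et_snoc, hc0]
      have e : mk a0 b q1 s0' s1' (t0.drop t.length) (t1.drop t.length) s0' =
          Encodable.encode (t0.drop t.length) := by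
        unfold mk
        rw [if_neg (fun h => not_both hinc hs0' (hi1.trans h)), if_neg (fun h => by
          rw [h] at hs0'
          exact not_both hinc hs0' hs1'), if_pos rfl]
      rw [e, blk_encode, app_drop ht0]
  · exact fun b hb r hr => hb.1 r hr
  · refine (hUm.preimage_of_isOpenMap (sh_open (s1' ++ [false])).1
      (sh_open (s1' ++ [false])).2).mono ?_
    rintro a ⟨⟨-, he1, haU, he0⟩, hnot⟩
    refine ⟨haU, fun hQ => hnot ?_⟩
    refine ⟨s0' ++ [false], s1' ++ [false], v2, (hq1.trans hs0).trans hi0,
      (hq1.trans hs1).trans hi1, ⟨fun h => not_both hinc (hi0.trans h) hi1,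
        fun h => not_both hinc hi0 (hi1.trans h)⟩, ?_, ?_⟩
    · have he1' : et a [] (s1' ++ [false]) = t1 := he1
      rw [he1']
      exact hQ
    · have he0' : et a [] (s0' ++ [false]) = t0 := he0
      rw [he0']
      refine hm0.mono ?_
      rintro c ⟨hc1, hc2⟩
      exact ⟨N_mono (List.prefix_append _ _) hc1, hc2⟩

end Pool.Agent.N612.MS
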