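import Mathlib

set_option autoImplicit false

/-!
# The Mansfield-Solovay property after adding one Cohen real: the definitions

The ground model is the universe of Lean (for the problem: the constructible universe). Names for
reals of the Cohen extension are Borel functions on Cantor space, two names being equal below a
condition if they agree on a comeager subset of it.
-/

namespace Pool.Agent.N612.MS

/-- Cantor space. -/
abbrev C : Type := ℕ → Bool

/-- The initial segment of length `n`. -/
def res (c : C) (n : ℕ) : List Bool := (List.range n).map c

/-- The basic clopen set of a finite string; the finite strings are the conditions of Cohen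
forcing, and a condition is stronger if it is longer. -/
def N (p : List Bool) : Set C := {c | res c p.length = p}

theorem measurable_memN {α : Type*} [MeasurableSpace α] {f : α → C} (hf : Measurable f)
    (s : List Bool) : Measurable fun a => f a ∈ N s := by
  have h : ∀ a, (f a ∈ N s) = ∀ i : Fin s.length, f a i = s[i] := by
    intro a
    apply propext
    constructor
    · intro h i
      have h1 : res (f a) s.length = s := h
      have h2 : (res (f a) s.length)[(i : ℕ)]? = s[(i : ℕ)]? := by rw [h1]
      simp only [res, List.getElem?_map, List.getElem?_range i.2, Option.map_some,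
        List.getElem?_eq_getElem i.2, Option.some.injEq] at h2
      exact h2
    · intro h
      show res (f a) s.length = s
      apply List.ext_getElem
      · simp [res]
      · intro n h1 h2
        simp only [res, List.getElem_map, List.getElem_range]
        exact h ⟨n, h2⟩
  simp only [h]
  refine Measurable.forall fun i => ?_
  have h3 : Measurable fun a => f a i := (measurable_pi_apply _).comp hf
  exact measurableSet_setOf.1 (h3 (measurableSet_singleton (s[i])))

theorem measurable_bit {α : Type*} [MeasurableSpace α] {f : α → C} (hf : Measurable f)
    (n : ℕ) (b : Bool) : Measurable fun a => f a n = b := by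
  have h3 : Measurable fun a => f a n := (measurable_pi_apply _).comp hf
  exact measurableSet_setOf.1 (h3 (measurableSet_singleton b))

/-- `g` is a code of a closed nowhere dense set, and `x` is in this set. -/
def IsND (g x : C) : Prop :=
  (∀ s : List Bool, ∃ s' : List Bool, s <+: s' ∧ g (Encodable.encode s') = false) ∧
    ∀ s : List Bool, x ∈ N s → g (Encodable.encode s) = true

/-- `y` is read off `x` by `g`: the initial segments of `y` are the initial segments of the
strings `t` such that `g` holds of `(s, t)` for an initial segment `s` of `x`. -/
def IsRd (g x y : C) : Prop :=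
  (∀ t : List Bool, y ∈ N t → ∃ s : List Bool, x ∈ N s ∧ g (Encodable.encode (s, t)) = true) ∧
    ∀ s t : List Bool, x ∈ N s → g (Encodable.encode (s, t)) = true → y ∈ N t

/-- `T` is a code of a tree, nonempty, in which every node has two incompatible extensions: the
trees of the perfect sets. -/
def IsPerf (T : C) : Prop :=
  T (Encodable.encode ([] : List Bool)) = true ∧
    (∀ (s : List Bool) (b : Bool), T (Encodable.encode (s ++ [b])) = true →
      T (Encodable.encode s) = true) ∧
    ∀ s : List Bool, T (Encodable.encode s) = true → ∃ u v : List Bool, s <+: u ∧ s <+: v ∧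
      T (Encodable.encode u) = true ∧ T (Encodable.encode v) = true ∧ ¬ u <+: v ∧ ¬ v <+: u

/-- `x` is a branch of the tree with the code `T`, that is, an element of the closed set. -/
def IsBr (T x : C) : Prop := ∀ s : List Bool, x ∈ N s → T (Encodable.encode s) = true

theorem meas_nd : MeasurableSet {w : Fin 2 → C | IsND (w 0) (w 1)} := by
  have h0 : Measurable fun w : Fin 2 → C => w 0 := measurable_pi_apply _
  have h1 : Measurable fun w : Fin 2 → C => w 1 := measurable_pi_apply _
  refine measurableSet_setOf.2 ?_
  unfold IsND
  refine Measurable.and (Measurable.forall fun s => Measurable.exists fun s' =>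
    (measurable_const).and (measurable_bit h0 _ _)) (Measurable.forall fun s =>
    (measurable_memN h1 s).imp (measurable_bit h0 _ _))

theorem meas_rd : MeasurableSet {w : Fin 3 → C | IsRd (w 0) (w 1) (w 2)} := by
  have h0 : Measurable fun w : Fin 3 → C => w 0 := measurable_pi_apply _
  have h1 : Measurable fun w : Fin 3 → C => w 1 := measurable_pi_apply _
  have h2 : Measurable fun w : Fin 3 → C => w 2 := measurable_pi_apply _
  refine measurableSet_setOf.2 ?_
  unfold IsRd
  refine Measurable.and (Measurable.forall fun t => (measurable_memN h2 t).imp
    (Measurable.exists fun s => (measurable_memN h1 s).and (measurable_bit h0 _ _)))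
    (Measurable.forall fun s => Measurable.forall fun t => (measurable_memN h1 s).imp
      ((measurable_bit h0 _ _).imp (measurable_memN h2 t)))

theorem meas_perf : MeasurableSet {w : Fin 1 → C | IsPerf (w 0)} := by
  have h0 : Measurable fun w : Fin 1 → C => w 0 := measurable_pi_apply _
  refine measurableSet_setOf.2 ?_
  unfold IsPerf
  refine (measurable_bit h0 _ _).and (Measurable.and (Measurable.forall fun s =>
    Measurable.forall fun b => (measurable_bit h0 _ _).imp (measurable_bit h0 _ _))
    (Measurable.forall fun s => (measurable_bit h0 _ _).imp (Measurable.exists fun u =>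
      Measurable.exists fun v => measurable_const.and (measurable_const.and
        ((measurable_bit h0 _ _).and ((measurable_bit h0 _ _).and
          (measurable_const.and measurable_const)))))))

theorem meas_br : MeasurableSet {w : Fin 2 → C | IsBr (w 0) (w 1)} := by
  have h0 : Measurable fun w : Fin 2 → C => w 0 := measurable_pi_apply _
  have h1 : Measurable fun w : Fin 2 → C => w 1 := measurable_pi_apply _
  refine measurableSet_setOf.2 ?_
  unfold IsBr
  exact Measurable.forall fun s => (measurable_memN h1 s).imp (measurable_bit h0 _ _)

/-- Names for reals of the Cohen extension: Borel functions. -/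
structure Nm : Type where
  /-- the function -/
  f : C → C
  /-- it is Borel -/
  hf : Measurable f

/-- Formulas about the reals of the Cohen extension, with Borel relations of the ground model and
a predicate for the reals of the ground model. The variables are the natural numbers. -/
inductive Fm : Type
  /-- the Borel relation `B` holds of the variables `x` -/
  | rel (k : ℕ) (B : Set (Fin k → C)) (hB : MeasurableSet B) (x : Fin k → ℕ) : Fm
  /-- the real `x` is in the ground model -/
  | gr (x : ℕ) : Fm
  /-- negation -/
  | neg (φ : Fm) : Fm
  /-- conjunction -/
  | and (φ ψ : Fm) : Fm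
  /-- for all reals `x` -/
  | all (x : ℕ) (φ : Fm) : Fm

namespace Fm

/-- there is a real `x` -/
def ex (x : ℕ) (φ : Fm) : Fm := neg (all x (neg φ))

/-- implication -/
def imp (φ ψ : Fm) : Fm := neg (and φ (neg ψ))

/-- `x` is in the closed nowhere dense set coded by `g` -/
def nd (g x : ℕ) : Fm := rel 2 {w | IsND (w 0) (w 1)} meas_nd ![g, x]

/-- `y` is read off `x` by `g` -/
def rd (g x y : ℕ) : Fm := rel 3 {w | IsRd (w 0) (w 1) (w 2)} meas_rd ![g, x, y]

/-- `T` codes a perfect tree -/
def perf (T : ℕ) : Fm := rel 1 {w | IsPerf (w 0)} meas_perf ![T]

/-- `x` is a branch of `T` -/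
def branch (T x : ℕ) : Fm := rel 2 {w | IsBr (w 0) (w 1)} meas_br ![T, x]

/-- The real `0` is a Cohen real over the ground model (it is in no closed nowhere dense set coded
in the ground model), and every real is read off it by a real of the ground model. -/
def chi : Fm :=
  and (all 1 (neg (and (gr 1) (nd 1 0)))) (all 2 (ex 1 (and (gr 1) (rd 1 0 2))))

/-- There is a real with `chi`; no real of the ground model has `chi`; there is no perfect set all
of whose elements have `chi`. -/
def sentence : Fm :=
  and (ex 0 chi) (and (all 0 (neg (and chi (gr 0))))
    (neg (ex 3 (and (perf 3) (all 0 (imp (branch 3 0) chi))))))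

end Fm

/-- The forcing relation of Cohen forcing, for the assignment `v` of names to the variables. -/
def Forces : List Bool → Fm → (ℕ → Nm) → Prop
  | p, .rel _ B _ x, v => IsMeagre {c | c ∈ N p ∧ (fun i => (v (x i)).f c) ∉ B}
  | p, .gr x, v => ∀ q, p <+: q → ∃ q', q <+: q' ∧ ∃ r : C, IsMeagre {c | c ∈ N q' ∧ (v x).f c ≠ r}
  | p, .neg φ, v => ∀ q, p <+: q → ¬ Forces q φ v
  | p, .and φ ψ, v => Forces p φ v ∧ Forces p ψ v
  | p, .all x φ, v => ∀ F : Nm, Forces p φ (Function.update v x F)

end Pool.Agent.N612.MS
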