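import Pool.Agent.N612.MS.Base

set_option autoImplicit false

/-!
# Cohen forcing forces that there is a real with `chi`
-/

namespace Pool.Agent.N612.MS

namespace EXAux

theorem forces_neg {p : List Bool} {φ : Fm} {v : ℕ → Nm} :
    Forces p (.neg φ) v ↔ ∀ q, p <+: q → ¬ Forces q φ v := by simp only [Forces]

theorem forces_and {p : List Bool} {φ ψ : Fm} {v : ℕ → Nm} :
    Forces p (.and φ ψ) v ↔ Forces p φ v ∧ Forces p ψ v := by simp only [Forces]

theorem forces_all {p : List Bool} {x : ℕ} {φ : Fm} {v : ℕ → Nm} :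
    Forces p (.all x φ) v ↔ ∀ F : Nm, Forces p φ (Function.update v x F) := by simp only [Forces]

theorem forces_gr {p : List Bool} {x : ℕ} {v : ℕ → Nm} :
    Forces p (.gr x) v ↔ ∀ q, p <+: q → ∃ q', q <+: q' ∧ ∃ r : C,
      IsMeagre {c | c ∈ N q' ∧ (v x).f c ≠ r} := by simp only [Forces]

theorem forces_nd {p : List Bool} {g x : ℕ} {v : ℕ → Nm} :
    Forces p (Fm.nd g x) v ↔
      IsMeagre {c | c ∈ N p ∧ ¬ IsND ((v g).f c) ((v x).f c)} := Iff.rfl

theorem forces_rd {p : List Bool} {g x y : ℕ} {v : ℕ → Nm} :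
    Forces p (Fm.rd g x y) v ↔
      IsMeagre {c | c ∈ N p ∧ ¬ IsRd ((v g).f c) ((v x).f c) ((v y).f c)} := Iff.rfl

/-- a point of a measurable set has, apart from a meagre set, an initial segment on which the
set is comeagre -/
theorem meagre_loc {B : Set C} (hB : MeasurableSet B) :
    IsMeagre {c | c ∈ B ∧ ∀ s, c ∈ N s → ¬ IsMeagre (N s \ B)} := by
  by_contra hcon
  obtain ⟨D, hD⟩ : ∃ D, D = {c | c ∈ B ∧ ∀ s, c ∈ N s → ¬ IsMeagre (N s \ B)} := ⟨_, rfl⟩
  rw [← hD] at hcon
  have hD' : D = B \ ⋃ s ∈ {s : List Bool | IsMeagre (N s \ B)}, N s := by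
    rw [hD]
    ext c
    simp only [Set.mem_ofPred_eq, Set.mem_sdiff, Set.mem_iUnion, exists_prop, not_exists, not_and]
    constructor
    · rintro ⟨h1, h2⟩
      exact ⟨h1, fun s hs hc => h2 s hc hs⟩
    · rintro ⟨h1, h2⟩
      exact ⟨h1, fun s hc hs => h2 s hs hc⟩
  have hDm : MeasurableSet D := by
    rw [hD']
    exact hB.diff (MeasurableSet.biUnion (Set.to_countable _) fun s _ => measurableSet_N s)
  obtain ⟨q, -, hq⟩ := bp hDm (p := []) (by rwa [N_nil, Set.univ_inter])
  have h1 : IsMeagre (N q \ B) := by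
    refine IsMeagre.mono (s := N q \ D) (fun c hc => ?_) hq
    refine ⟨hc.1, fun h => hc.2 ?_⟩
    rw [hD] at h
    exact h.1
  refine not_meagre_N q (IsMeagre.mono (s := N q \ D) (fun c hc => ?_) hq)
  refine ⟨hc, fun h => ?_⟩
  rw [hD] at h
  exact h.2 q hc h1

open Classical in
/-- the code of the function -/
noncomputable def code (y : C → C) : C := fun n => decide (∃ s t : List Bool,
  n = Encodable.encode (s, t) ∧ IsMeagre {c | c ∈ N s ∧ y c ∉ N t})

theorem code_iff (y : C → C) (s t : List Bool) :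
    code y (Encodable.encode (s, t)) = true ↔ IsMeagre {c | c ∈ N s ∧ y c ∉ N t} := by
  simp only [code, decide_eq_true_eq]
  constructor
  · rintro ⟨s', t', h, hm⟩
    have := Encodable.encode_injective h
    rw [Prod.mk.injEq] at this
    rw [this.1, this.2]
    exact hm
  · intro h
    exact ⟨s, t, rfl, h⟩

theorem code_rd {y : C → C} (hy : Measurable y) : IsMeagre {c | ¬ IsRd (code y) c (y c)} := by
  have h1 : IsMeagre (⋃ t : List Bool, {c | c ∈ y ⁻¹' N t ∧
      ∀ s, c ∈ N s → ¬ IsMeagre (N s \ y ⁻¹' N t)}) :=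
    isMeagre_iUnion fun t => meagre_loc (hy (measurableSet_N t))
  have h2 : IsMeagre (⋃ x : {x : List Bool × List Bool // IsMeagre {c | c ∈ N x.1 ∧ y c ∉ N x.2}},
      {c | c ∈ N x.1.1 ∧ y c ∉ N x.1.2}) := isMeagre_iUnion fun x => x.2
  refine (h1.union h2).mono ?_
  intro c hc
  by_contra hcon
  rw [Set.mem_union, not_or, Set.mem_iUnion, Set.mem_iUnion, not_exists, not_exists] at hcon
  obtain ⟨g1, g2⟩ := hcon
  refine hc ⟨fun t ht => ?_, fun s t hs hst => ?_⟩
  · have h3 := g1 t
    rw [Set.mem_ofPred_eq, not_and] at h3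
    have h4 := h3 ht
    push Not at h4
    obtain ⟨s, hs, hm⟩ := h4
    exact ⟨s, hs, (code_iff y s t).2 hm⟩
  · by_contra ht
    exact g2 ⟨(s, t), (code_iff y s t).1 hst⟩ ⟨hs, ht⟩

/-- the generic real has `chi` -/
theorem forces_chi (q : List Bool) (w : ℕ → Nm) (hw : ∀ c, (w 0).f c = c) :
    Forces q Fm.chi w := by
  unfold Fm.chi
  rw [forces_and, forces_all, forces_all]
  constructor
  · intro F
    rw [forces_neg]
    intro q1 _ h
    rw [forces_and, forces_gr, forces_nd] at h
    obtain ⟨h1, h2⟩ := h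
    obtain ⟨q2, hq2, r, hr⟩ := h1 q1 List.prefix_rfl
    rw [Function.update_self] at hr h2
    rw [Function.update_of_ne (by decide)] at h2
    have hM := hr.union h2
    have key : ∀ c ∈ N q2, c ∉ {c | c ∈ N q2 ∧ F.f c ≠ r} ∪
        {c | c ∈ N q1 ∧ ¬ IsND (F.f c) ((w 0).f c)} → IsND r c := by
      intro c hc hn
      rw [Set.mem_union, not_or, Set.mem_ofPred_eq, Set.mem_ofPred_eq, not_and, not_and, not_not,
        not_not] at hn
      have e1 := hn.1 hc
      have e2 := hn.2 (N_mono hq2 hc)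
      rw [e1, hw] at e2
      exact e2
    obtain ⟨c0, hc0, hc0'⟩ := exists_mem (p := q2) hM
    obtain ⟨s', hs', hrs'⟩ := (key c0 hc0 hc0').1 q2
    obtain ⟨c1, hc1, hc1'⟩ := exists_mem (p := s') hM
    have := (key c1 (N_mono hs' hc1) hc1').2 s' hc1
    rw [hrs'] at this
    exact Bool.noConfusion this
  · intro G
    unfold Fm.ex
    rw [forces_neg]
    intro q1 _ h
    rw [forces_all] at h
    have h1 := h ⟨fun _ => code G.f, measurable_const⟩
    rw [forces_neg] at h1
    apply h1 q1 List.prefix_rfl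
    rw [forces_and, forces_gr, forces_rd]
    rw [Function.update_self, Function.update_of_ne (show (0 : ℕ) ≠ 1 by decide),
      Function.update_of_ne (show (2 : ℕ) ≠ 1 by decide), Function.update_self,
      Function.update_of_ne (show (0 : ℕ) ≠ 2 by decide)]
    refine ⟨fun q2 _ => ⟨q2, List.prefix_rfl, code G.f, ?_⟩, ?_⟩
    · have : {c | c ∈ N q2 ∧ (fun _ => code G.f : C → C) c ≠ code G.f} = (∅ : Set C) := by
        ext c
        simp
      rw [this]
      exact IsMeagre.empty
    · refine (code_rd G.hf).mono ?_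
      intro c hc
      have := hc.2
      rw [hw] at this
      exact this

end EXAux

open EXAux in
/-- **There is a real with `chi`: the generic real.** -/
theorem forces_ex (p : List Bool) (v : ℕ → Nm) : Forces p (Fm.ex 0 Fm.chi) v := by
  unfold Fm.ex
  rw [forces_neg]
  intro q _ h
  rw [forces_all] at h
  have h1 := h ⟨fun c => c, measurable_id⟩
  rw [forces_neg] at h1
  exact h1 q List.prefix_rfl (forces_chi q _ fun c => by rw [Function.update_self])

end Pool.Agent.N612.MS
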