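import Pool.Agent.N612.MS.BR
import Pool.Agent.N612.MS.ETA

set_option autoImplicit false

/-!
# The final contradiction: non-injectivity (helper97)
-/

namespace Pool.Agent.N612.MS

theorem fin_mem {E : C → List Bool → List Bool} {p : List Bool} (h : Cr p E) (a : A) {c : C}
    {w u : List Bool} (hc : c ∈ N w) (hu : u <+: E c (et a [] w)) :
    br (E c) (ev a [] [] c) ∈ N u := by
  have h1 := ev_mem a [] [] c w.length
  rw [rel_eq (s := []) (r := w) (by simpa using hc)] at h1
  have h2 : res (ev a [] [] c) (et a [] w).length = et a [] w := h1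
  have h3 := br_mem (h.mono c) (h.inc c) (ev a [] [] c) (et a [] w).length
  rw [h2] at h3
  exact N_mono hu h3

theorem fin {p : List Bool} {E : C → List Bool → List Bool} (h : Cr p E)
    (hP : ∀ q, p <+: q → Pq E q ∈ residual A) : False := by
  have h1 : {a : A | ∀ q, p <+: q → a ∈ Pq E q} ∈ residual A := by
    have h2 : ∀ᶠ a : A in residual A, ∀ q, p <+: q → a ∈ Pq E q := by
      rw [eventually_countable_forall]
      intro q
      by_cases hq : p <+: q
      · filter_upwards [hP q hq] with a ha _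
        exact ha
      · exact Filter.Eventually.of_forall fun a hq' => absurd hq' hq
    exact h2
  obtain ⟨a, ha⟩ := (dense_of_mem_residual h1).nonempty
  set F : C → C := fun c => br (E c) (ev a [] [] c) with hF
  have hFm : Measurable F := br_meas h.meas (ev_meas a [] [])
  obtain ⟨q', hq', G0, hG0, hinj⟩ := h.inj (ev a [] []) (ev_meas a [] []) p (List.prefix_refl p)
  obtain ⟨G, hGG, hGδ, hGd⟩ := mem_residual.1 hG0
  have hGr : G ∈ residual C := residual_of_dense_Gδ hGδ hGd
  have hGm : MeasurableSet G := hGδ.measurableSet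
  have hGc : IsMeagre Gᶜ := by
    show Gᶜᶜ ∈ residual C
    rwa [compl_compl]
  obtain ⟨s0, s1, v, hs0, hs1, hinc, hQ, hm⟩ := ha q' hq'
  have hinj1 : Set.InjOn F (N s1 ∩ G) := hinj.mono (Set.inter_subset_inter (N_mono hs1) hGG)
  have hI : MeasurableSet (F '' (N s1 ∩ G)) :=
    ((measurableSet_N s1).inter hGm).image_of_measurable_injOn hFm hinj1
  have hps0 : p <+: s0 := hq'.trans hs0
  have hps1 : p <+: s1 := hq'.trans hs1
  have hmain : IsMeagre (N v ∩ (F '' (N s1 ∩ G))ᶜ) := by
    by_contra hcon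
    obtain ⟨u, hvu, hu⟩ := bp hI.compl hcon
    obtain ⟨r, hr⟩ := hQ u hvu
    have h2 := small_meagre h (ev_meas a [] []) hu
    obtain ⟨c, hc, hc'⟩ := exists_mem (p := s1 ++ r) ((hGc.union h2).union hr)
    simp only [Set.mem_union, not_or] at hc'
    obtain ⟨⟨c1, c2⟩, c3⟩ := hc'
    have hcG : c ∈ G := by
      by_contra hh
      exact c1 hh
    have hcs1 : c ∈ N s1 := N_mono (List.prefix_append s1 r) hc
    have hcu : u <+: E c (et a [] (s1 ++ r)) := by
      by_contra hh
      rw [et_append] at hh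
      exact c3 ⟨hc, hh⟩
    have hFu : F c ∈ N u := fin_mem h a hc hcu
    exact c2 ⟨N_mono hps1 hcs1, hFu, fun hh => hh ⟨c, ⟨hcs1, hcG⟩, rfl⟩⟩
  have h3 := small_meagre h (ev_meas a [] []) hmain
  obtain ⟨c, hc, hc'⟩ := exists_mem (p := s0) ((hGc.union h3).union hm)
  simp only [Set.mem_union, not_or] at hc'
  obtain ⟨⟨c1, c2⟩, c3⟩ := hc'
  have hcG : c ∈ G := by
    by_contra hh
    exact c1 hh
  have hcu : v <+: E c (et a [] s0) := by
    by_contra hh
    exact c3 ⟨hc, hh⟩
  have hFv : F c ∈ N v := fin_mem h a hc hcu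
  refine c2 ⟨N_mono hps0 hc, hFv, ?_⟩
  rintro ⟨c', ⟨hc1, hc2⟩, he⟩
  have h4 : c' = c := hinj ⟨N_mono hs1 hc1, hGG hc2⟩ ⟨N_mono hs0 hc, hGG hcG⟩ he
  rw [h4] at hc1
  exact not_mem_of_inc hinc hc hc1

end Pool.Agent.N612.MS
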