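import Pool.Agent.N612.MS.Base

set_option autoImplicit false

/-!
# `Q` is a `G_δ` set; Baire category in the space of block functions (helper492)
-/

namespace Pool.Agent.N612.MS

/-- a property of finitely many coordinates is open -/
theorem isOpen_et (t r : List Bool) (P : List Bool → Prop) : IsOpen {b : A | P (et b t r)} := by
  rw [isOpen_iff_mem_nhds]
  intro b hb
  have h1 : IsOpen (⋂ i ∈ Finset.range r.length, {b' : A | b' (r.take i) = b (r.take i)}) := by
    refine isOpen_biInter_finset fun i _ => ?_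
    have hc : Continuous fun b' : A => b' (r.take i) := continuous_apply (r.take i)
    exact (isOpen_discrete ({b (r.take i)} : Set ℕ)).preimage hc
  have h2 : b ∈ ⋂ i ∈ Finset.range r.length, {b' : A | b' (r.take i) = b (r.take i)} :=
    Set.mem_iInter₂.2 fun i _ => rfl
  refine Filter.mem_of_superset (h1.mem_nhds h2) fun b' hb' => ?_
  have h3 : et b' t r = et b t r := by
    unfold et
    congr 2
    refine List.map_congr_left fun i hi => ?_
    have h4 := Set.mem_iInter₂.1 hb' i (Finset.mem_range.2 (List.mem_range.1 hi))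
    have h5 : b' (r.take i) = b (r.take i) := h4
    rw [h5]
  show P (et b' t r)
  rw [h3]
  exact hb

theorem q_gdelta (E : C → List Bool → List Bool) (s t v : List Bool) : IsGδ (Q E s t v) := by
  have h1 : Q E s t v = ⋂ u : {u : List Bool // v <+: u},
      {b : A | ∃ r, IsMeagre {c | c ∈ N (s ++ r) ∧ ¬ u.1 <+: E c (et b t r)}} := by
    ext b
    simp only [Q, Set.mem_ofPred_eq, Set.mem_iInter, Subtype.forall]
  rw [h1]
  refine IsGδ.iInter_of_isOpen fun u => ?_
  have h2 : {b : A | ∃ r, IsMeagre {c | c ∈ N (s ++ r) ∧ ¬ u.1 <+: E c (et b t r)}} =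
      ⋃ r, {b : A | IsMeagre {c | c ∈ N (s ++ r) ∧ ¬ u.1 <+: E c (et b t r)}} := by
    ext b
    simp only [Set.mem_ofPred_eq, Set.mem_iUnion]
  rw [h2]
  exact isOpen_iUnion fun r => isOpen_et t r
    (fun l => IsMeagre {c | c ∈ N (s ++ r) ∧ ¬ u.1 <+: E c l})

/-- if comeagrely many points of the Baire space are in one of countably many G_delta sets, then
one of them is comeagre in a nonempty open set -/
theorem exists_open {S : List Bool → Set A} (hS : ∀ v, IsGδ (S v)) {V : Set (List Bool)}
    (h : ∀ᶠ a : A in residual A, ∃ v ∈ V, a ∈ S v) :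
    ∃ v ∈ V, ∃ U : Set A, IsOpen U ∧ U.Nonempty ∧ IsMeagre (U \ S v) := by
  have h1 : ¬ IsMeagre {a : A | ∃ v ∈ V, a ∈ S v} := not_isMeagre_of_mem_residual h
  have h2 : {a : A | ∃ v ∈ V, a ∈ S v} = ⋃ v ∈ V, S v := by
    ext a
    simp only [Set.mem_ofPred_eq, Set.mem_iUnion, exists_prop]
  rw [h2] at h1
  obtain ⟨v, hv, hm⟩ := exists_of_not_isMeagre_biUnion V.to_countable h1
  obtain ⟨U, hU, hSU⟩ := (hS v).measurableSet.residualEq_isOpen
  refine ⟨v, hv, U, hU, ?_, ?_⟩
  · by_contra hne
    rw [Set.not_nonempty_iff_eq_empty] at hne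
    apply hm
    rw [hne] at hSU
    unfold IsMeagre
    filter_upwards [hSU] with a ha has
    have h3 : (S v) a = (∅ : Set A) a := ha
    have h4 : (∅ : Set A) a := by rw [← h3]; exact has
    exact h4
  · unfold IsMeagre
    filter_upwards [hSU] with a ha has
    have h3 : (S v) a = U a := ha
    exact has.2 (by
      show (S v) a
      rw [h3]
      exact has.1)

end Pool.Agent.N612.MS
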