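import Pool.Agent.N612.MS.Base
import Pool.Agent.N612.MS.ETA

set_option autoImplicit false

/-!
# Generic block functions are total (helper135)
-/

namespace Pool.Agent.N612.MS

theorem tot_len_cont (t w : List Bool) : Continuous fun a : A => (et a t w).length := by
  have h : (fun a : A => (et a t w).length) = fun a : A => t.length +
      ((List.range w.length).map fun i => (blk (a (w.take i))).length).sum := by
    funext a
    simp [et, List.length_append, List.length_flatten, List.map_map, Function.comp_def]
  rw [h]
  refine continuous_const.add (continuous_list_sum _ fun i _ => ?_)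
  exact (continuous_of_discreteTopology (f := fun n : ℕ => (blk n).length)).comp
    (continuous_apply (w.take i))

theorem tot_dense (t r : List Bool) (n : ℕ) :
    {a : A | ∃ r', n ≤ (et a t (r ++ r')).length} ∈ residual A := by
  refine residual_of_dense_open ?_ ?_
  · have h : {a : A | ∃ r', n ≤ (et a t (r ++ r')).length} =
        ⋃ r', {a : A | n ≤ (et a t (r ++ r')).length} := by
      ext a
      simp
    rw [h]
    refine isOpen_iUnion fun r' => ?_
    exact (isOpen_discrete {m : ℕ | n ≤ m}).preimage (tot_len_cont t (r ++ r'))
  · rw [dense_iff_inter_open]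
    rintro U hU ⟨a, ha⟩
    obtain ⟨I, u, hu, hI⟩ := isOpen_pi_iff.1 hU a ha
    set m := (I.sup List.length) + 1 with hm
    set w := r ++ List.replicate m false with hw
    have hwI : w ∉ I := by
      intro h
      have h1 : w.length ≤ I.sup List.length := Finset.le_sup (f := List.length) h
      rw [hw, List.length_append, List.length_replicate] at h1
      omega
    refine ⟨Function.update a w (Encodable.encode (List.replicate n false)), hI ?_,
      List.replicate m false ++ [false], ?_⟩
    · intro i hi
      have hne : i ≠ w := by
        rintro rfl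
        exact hwI hi
      rw [Function.update_of_ne hne]
      exact (hu i hi).2
    · rw [← List.append_assoc, ← hw, et_snoc, Function.update_self, blk_encode,
        List.length_append, List.length_replicate]
      omega

theorem tot (s t : List Bool) : ∀ᶠ a : A in residual A,
    IsMeagre {c | c ∈ N s ∧ ∃ n, ∀ k, (et a t (rel s c k)).length ≤ n} := by
  have h : ∀ᶠ a : A in residual A, ∀ (r : List Bool) (n : ℕ),
      ∃ r', n ≤ (et a t (r ++ r')).length :=
    eventually_countable_forall.2 fun r => eventually_countable_forall.2 fun n => tot_dense t r n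
  filter_upwards [h] with a ha
  have e : {c | c ∈ N s ∧ ∃ n, ∀ k, (et a t (rel s c k)).length ≤ n} =
      ⋃ n, N s ∩ {c | ∀ k, (et a t (rel s c k)).length ≤ n} := by
    ext c
    simp
  rw [e]
  refine isMeagre_iUnion fun n => meagre_of_dense ?_
  rintro q ⟨r, rfl⟩
  obtain ⟨r', hr'⟩ := ha r (n + 1)
  refine ⟨s ++ (r ++ r'), by rw [← List.append_assoc]; exact List.prefix_append _ _, ?_⟩
  have : N (s ++ (r ++ r')) ∩ {c | ∀ k, (et a t (rel s c k)).length ≤ n} = ∅ := by
    rw [Set.eq_empty_iff_forall_notMem]
    rintro c ⟨hc, hc2⟩
    have h2 := hc2 (r ++ r').length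
    rw [rel_eq hc] at h2
    omega
  rw [this]
  exact IsMeagre.empty

end Pool.Agent.N612.MS
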