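import Pool.Agent.N612.MS.Base
import Pool.Agent.N612.MS.BR
import Pool.Agent.N612.MS.ETA
import Pool.Agent.N612.MS.TOT
import Pool.Agent.N612.MS.QMEAS

set_option autoImplicit false

/-!
# The generic function covers an open set. By helper678.
-/

namespace Pool.Agent.N612.MS

theorem good_claim {p : List Bool} {E : C → List Bool → List Bool} (h : Cr p E)
    {s t u : List Bool} {b : A}
    (hb : IsMeagre {c | c ∈ N s ∧ ∃ n, ∀ k, (et b t (rel s c k)).length ≤ n})
    (hu : ∀ r, ¬ IsMeagre {c | c ∈ N (s ++ r) ∧ ¬ u <+: E c (et b t r)}) :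
    IsMeagre {c | c ∈ N s ∧ br (E c) (ev b s t c) ∈ N u} := by
  by_contra hne
  -- some level is not meagre
  obtain ⟨r, hr⟩ : ∃ r, ¬ IsMeagre {c | c ∈ N (s ++ r) ∧ u <+: E c (et b t r)} := by
    by_contra hall
    push Not at hall
    apply hne
    refine (hb.union (isMeagre_iUnion hall)).mono ?_
    rintro c ⟨hc, hcu⟩
    by_cases hn : ∃ n, ∀ k, (et b t (rel s c k)).length ≤ n
    · exact Or.inl ⟨hc, hn⟩
    · right
      push Not at hn
      obtain ⟨k, hk⟩ := hn u.length
      have h1 : u <+: E c (et b t (rel s c k)) :=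
        prefix_of_br_mem (h.mono c) (h.inc c) hcu (ev_mem b s t c k) hk.le
      refine Set.mem_iUnion.2 ⟨rel s c k, ?_, h1⟩
      rw [← res_eq_append_rel hc k]
      exact mem_N_res _ _
  have hB : MeasurableSet {c | u <+: E c (et b t r)} := by
    have e : {c | u <+: E c (et b t r)} =
        ⋃ w : {w : List Bool // u <+: w}, {c | E c (et b t r) = w.1} := by
      ext c
      simp only [Set.mem_setOf_eq, Set.mem_iUnion]
      constructor
      · intro hc
        exact ⟨⟨_, hc⟩, rfl⟩
      · rintro ⟨w, hw⟩
        rw [hw]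
        exact w.2
    rw [e]
    exact MeasurableSet.iUnion fun w => h.meas _ _
  obtain ⟨q, ⟨r', hq⟩, hqm⟩ := bp hB (p := s ++ r) hr
  refine hu (r ++ r') (hqm.mono ?_)
  rintro c ⟨hc1, hc2⟩
  have e1 : s ++ (r ++ r') = q := by rw [← hq, List.append_assoc]
  rw [e1] at hc1
  refine ⟨hc1, fun h3 => hc2 ?_⟩
  have h4 : E c (et b t r) <+: E c (et b t (r ++ r')) :=
    mono_prefix (h.mono c) (et_mono b t (List.prefix_append r r'))
  exact List.IsPrefix.trans h3 h4

theorem good {p : List Bool} {E : C → List Bool → List Bool} (h : Cr p E) : GoodS p E := by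
  intro s t v0 hps hv0
  obtain ⟨v, hv, U, hU⟩ := exists_open (S := fun v => Q E s t v) (fun v => q_gdelta E s t v)
    (V := {v | v0 <+: v}) (by
      filter_upwards [tot s t] with b hb
      by_contra hcon
      push Not at hcon
      have hex : ∀ v : {v : List Bool // v0 <+: v}, ∃ u, v.1 <+: u ∧
          ∀ r, ¬ IsMeagre {c | c ∈ N (s ++ r) ∧ ¬ u <+: E c (et b t r)} := by
        intro v
        have h1 := hcon v.1 v.2
        unfold Q at h1
        rw [Set.mem_setOf_eq] at h1
        push Not at h1
        exact h1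
      choose u hu1 hu2 using hex
      have hcl : ∀ v, IsMeagre {c | c ∈ N s ∧ br (E c) (ev b s t c) ∈ N (u v)} :=
        fun v => good_claim h hb (hu2 v)
      obtain ⟨K, hK⟩ : ∃ K : Set C, K = N v0 \ ⋃ v, N (u v) := ⟨_, rfl⟩
      have hKc : IsClosed K := by
        rw [hK]
        exact (isClosed_N v0).sdiff (isOpen_iUnion fun v => isOpen_N _)
      have hKi : interior K = ∅ := by
        rw [Set.eq_empty_iff_forall_notMem]
        intro c hc
        obtain ⟨n, hn, hsub⟩ := exists_N isOpen_interior hc v0.length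
        have hcK : c ∈ N v0 := by
          have := interior_subset hc
          rw [hK] at this
          exact this.1
        have hv : v0 <+: res c n := prefix_of_mem hcK hn
        obtain ⟨x, hx⟩ := N_nonempty (u ⟨res c n, hv⟩)
        have hx1 : x ∈ K := interior_subset (hsub (N_mono (hu1 ⟨res c n, hv⟩) hx))
        rw [hK] at hx1
        exact hx1.2 (Set.mem_iUnion.2 ⟨_, hx⟩)
      have hsm := h.small (ev b s t) (ev_meas b s t) K hKc hKi
      refine not_meagre_N s (((hv0.union hsm).union (isMeagre_iUnion hcl)).mono ?_)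
      intro c hc
      by_cases h1 : v0 <+: E c t
      · by_cases h2 : ∃ v, br (E c) (ev b s t c) ∈ N (u v)
        · obtain ⟨v, hv⟩ := h2
          exact Or.inr (Set.mem_iUnion.2 ⟨v, hc, hv⟩)
        · refine Or.inl (Or.inr ⟨N_mono hps hc, ?_⟩)
          have h3 : ev b s t c ∈ N t := by
            have h4 := ev_mem b s t c 0
            have h5 : rel s c 0 = [] := List.length_eq_zero_iff.1 (rel_length s c 0)
            rw [h5, et_nil] at h4
            exact h4
          have h6 : br (E c) (ev b s t c) ∈ N (E c t) := by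
            have h7 := br_mem (h.mono c) (h.inc c) (ev b s t c) t.length
            have h8 : res (ev b s t c) t.length = t := h3
            rw [h8] at h7
            exact h7
          rw [hK]
          refine ⟨N_mono h1 h6, fun h9 => h2 (Set.mem_iUnion.1 h9)⟩
      · exact Or.inl (Or.inl ⟨hc, h1⟩))
  exact ⟨v, hv, U, hU⟩

end Pool.Agent.N612.MS
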