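import Pool.Agent.N612.MS.BR

set_option autoImplicit false

/-!
# The images under the branch functions of the constants
-/

namespace Pool.Agent.N612.MS

theorem img {p : List Bool} {E : C → List Bool → List Bool} (h : Cr p E) (y : C)
    {q : List Bool} (hq : p <+: q) :
    ∃ q' v, q <+: q' ∧ ∃ G : Set C, MeasurableSet G ∧ G ∈ residual C ∧
      Set.InjOn (fun c => br (E c) y) (N q' ∩ G) ∧
      (∀ s u, IsMeagre {c | c ∈ N s ∧ br (E c) y ∈ N u} → ∀ c ∈ G, c ∈ N s → br (E c) y ∉ N u) ∧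
      IsMeagre (N v \ (fun c => br (E c) y) '' (N q' ∩ G)) := by
  classical
  have hη : Measurable (fun _ : C => y) := measurable_const
  have hf : Measurable fun c => br (E c) y := br_meas h.meas hη
  obtain ⟨q', hqq', G0, hG0, hinj⟩ := h.inj (fun _ => y) hη q hq
  obtain ⟨G1, hG1sub, hG1δ, hG1d⟩ := mem_residual.1 hG0
  have hG1m : MeasurableSet G1 := hG1δ.measurableSet
  have hG1r : G1 ∈ residual C := residual_of_dense_Gδ hG1δ hG1d
  let S : List Bool × List Bool → Set C := fun su =>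
    if IsMeagre {c | c ∈ N su.1 ∧ br (E c) y ∈ N su.2} then
      {c | c ∈ N su.1 ∧ br (E c) y ∈ N su.2} else ∅
  have hSm : ∀ su, MeasurableSet (S su) := by
    intro su
    by_cases hs : IsMeagre {c | c ∈ N su.1 ∧ br (E c) y ∈ N su.2}
    · simp only [S, if_pos hs]
      exact (measurableSet_N su.1).inter (hf (measurableSet_N su.2))
    · simp only [S, if_neg hs]
      exact MeasurableSet.empty
  have hSr : ∀ su, IsMeagre (S su) := by
    intro su
    by_cases hs : IsMeagre {c | c ∈ N su.1 ∧ br (E c) y ∈ N su.2}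
    · simp only [S, if_pos hs]
      exact hs
    · simp only [S, if_neg hs]
      exact IsMeagre.empty
  have hU : IsMeagre (⋃ su, S su) := isMeagre_iUnion hSr
  have hUm : MeasurableSet (⋃ su, S su) := MeasurableSet.iUnion hSm
  have hGm : MeasurableSet (G1 \ ⋃ su, S su) := hG1m.diff hUm
  have hGr : (G1 \ ⋃ su, S su) ∈ residual C := Filter.inter_mem hG1r hU
  have hinj' : Set.InjOn (fun c => br (E c) y) (N q' ∩ (G1 \ ⋃ su, S su)) :=
    Set.InjOn.mono (show N q' ∩ (G1 \ ⋃ su, S su) ⊆ N q' ∩ G0 from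
      fun c hc => ⟨hc.1, hG1sub hc.2.1⟩) hinj
  have hI : MeasurableSet ((fun c => br (E c) y) '' (N q' ∩ (G1 \ ⋃ su, S su))) :=
    MeasurableSet.image_of_measurable_injOn ((measurableSet_N q').inter hGm) hf hinj'
  have hnm : ¬ IsMeagre ((fun c => br (E c) y) '' (N q' ∩ (G1 \ ⋃ su, S su))) := by
    intro hM
    have h1 := small_meagre h hη hM
    have h2 : IsMeagre ({c | c ∈ N p ∧ br (E c) y ∈
        (fun c => br (E c) y) '' (N q' ∩ (G1 \ ⋃ su, S su))} ∪ (G1 \ ⋃ su, S su)ᶜ) :=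
      h1.union (by
        show ((G1 \ ⋃ su, S su)ᶜ)ᶜ ∈ residual C
        rw [compl_compl]
        exact hGr)
    refine not_meagre_N q' (h2.mono ?_)
    intro c hc
    by_cases hcG : c ∈ (G1 \ ⋃ su, S su)
    · exact Or.inl ⟨N_mono (hq.trans hqq') hc, Set.mem_image_of_mem _ ⟨hc, hcG⟩⟩
    · exact Or.inr hcG
  have hnm' : ¬ IsMeagre (N [] ∩ (fun c => br (E c) y) '' (N q' ∩ (G1 \ ⋃ su, S su))) := by
    rw [N_nil, Set.univ_inter]
    exact hnm
  obtain ⟨v, -, hv⟩ := bp hI hnm'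
  refine ⟨q', v, hqq', G1 \ ⋃ su, S su, hGm, hGr, hinj', ?_, hv⟩
  intro s u hsu c hc hcs hcu
  apply hc.2
  refine Set.mem_iUnion.2 ⟨(s, u), ?_⟩
  simp only [S, if_pos hsu]
  exact ⟨hcs, hcu⟩

end Pool.Agent.N612.MS
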