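import Pool.Agent.N612.MS.Base

set_option autoImplicit false

/-!
# No real of the ground model has `chi` (leaf MS-NG, helper249)
-/

namespace Pool.Agent.N612.MS

namespace NG

open Classical in
/-- the code of the closed nowhere dense set with the only element `r` -/
noncomputable def code (r : C) : C :=
  fun n => decide (∃ s : List Bool, n = Encodable.encode s ∧ r ∈ N s)

open Classical in
theorem code_iff (r : C) (s : List Bool) : code r (Encodable.encode s) = true ↔ r ∈ N s := by
  unfold code
  rw [decide_eq_true_iff]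
  constructor
  · rintro ⟨s', h1, h2⟩
    rw [Encodable.encode_injective h1]
    exact h2
  · intro h
    exact ⟨s, rfl, h⟩

theorem isND_code (r : C) : IsND (code r) r := by
  refine ⟨fun s => ?_, fun s hs => (code_iff r s).2 hs⟩
  refine ⟨s ++ [!(r s.length)], List.prefix_append _ _, ?_⟩
  rw [← Bool.not_eq_true, code_iff]
  intro h
  have h1 := mem_N.1 h s.length (by simp)
  simp at h1

end NG

theorem forces_ng (p : List Bool) (v : ℕ → Nm) :
    Forces p (Fm.all 0 (Fm.neg (Fm.and Fm.chi (Fm.gr 0)))) v := by
  intro F q _ hq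
  obtain ⟨⟨h1, -⟩, h2⟩ := hq
  obtain ⟨q1, hq1, r, hr⟩ := h2 q (List.prefix_refl q)
  refine h1 ⟨fun _ => NG.code r, measurable_const⟩ q1 hq1 ⟨?_, ?_⟩
  · intro q' _
    refine ⟨q', List.prefix_refl q', NG.code r, ?_⟩
    have he : {c : C | c ∈ N q' ∧ (Function.update (Function.update v 0 F) 1
        ⟨fun _ => NG.code r, measurable_const⟩ 1).f c ≠ NG.code r} = ∅ := by
      ext c
      simp
    rw [he]
    exact IsMeagre.empty
  · refine hr.mono ?_
    rintro c ⟨hc, hn⟩
    refine ⟨hc, fun h => hn ?_⟩
    have h3 : F.f c = r := by simpa using h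
    show IsND _ _
    simpa [h3] using NG.isND_code r

end Pool.Agent.N612.MS
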