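import Pool.Agent.N612.MS.Base
import Pool.Agent.N612.MS.BR
import Pool.Agent.N612.MS.IMG

set_option autoImplicit false

/-!
# Two incompatible conditions reaching the same open set (helper288)
-/

namespace Pool.Agent.N612.MS

namespace PairX

theorem not_countable : ¬ Countable C := by
  intro h
  obtain ⟨f, hf⟩ := exists_surjective_nat C
  obtain ⟨m, hm⟩ := hf fun n => !f n n
  have := congrFun hm m
  simp at this

/-- `t` followed by `z` -/
def app (t : List Bool) (z : C) : C := fun n => if h : n < t.length then t[n] else z (n - t.length)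

theorem app_mem (t : List Bool) (z : C) : app t z ∈ N t := by
  rw [mem_N]
  intro i h
  simp [app, h]

theorem app_inj (t : List Bool) : Function.Injective (app t) := by
  intro z z' h
  funext n
  have := congrFun h (n + t.length)
  simpa [app] using this

/-- two points of `N t` with the same value of a function with countably many values -/
theorem exists_pair (t : List Bool) {α : Type} [Countable α] (F : C → α) :
    ∃ y ∈ N t, ∃ y' ∈ N t, y ≠ y' ∧ F y = F y' := by
  by_contra hcon
  push Not at hcon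
  apply not_countable
  have hinj : Function.Injective fun z => F (app t z) := by
    intro z z' h
    by_contra hne
    exact hcon _ (app_mem t z) _ (app_mem t z') (fun h' => hne (app_inj t h')) h
  exact hinj.countable

theorem res_inj {c c' : C} {m : ℕ} (h : res c m = res c' m) {n : ℕ} (hn : n < m) : c n = c' n := by
  have h1 : (res c m)[n]? = (res c' m)[n]? := by rw [h]
  simpa [res, List.getElem?_range hn] using h1

/-- clean points give accessibility -/
theorem acc {p : List Bool} {E : C → List Bool → List Bool} (h : Cr p E) {y : C} {s t u : List Bool}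
    {G : Set C} (hy : y ∈ N t)
    (hG : IsMeagre {c | c ∈ N s ∧ br (E c) y ∈ N u} → ∀ c ∈ G, c ∈ N s → br (E c) y ∉ N u)
    {c : C} (hc : c ∈ N s) (hcG : c ∈ G) (hcu : br (E c) y ∈ N u) : Acc E s t u := by
  have h1 : ¬ IsMeagre {c | c ∈ N s ∧ br (E c) y ∈ N u} := fun hm => hG hm c hcG hc hcu
  obtain ⟨t', ht'⟩ : ∃ t', t' = res y (max u.length t.length) := ⟨_, rfl⟩
  have hyt : y ∈ N t' := by
    rw [ht']
    exact mem_N_res _ _
  have htt : t <+: t' := by
    rw [ht']
    exact prefix_of_mem hy (le_max_right _ _)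
  have hlen : u.length ≤ t'.length := by
    rw [ht', res_length]
    exact le_max_left _ _
  have hB : MeasurableSet {c | u <+: E c t'} := by
    have e : {c | u <+: E c t'} = ⋃ w : {w : List Bool // u <+: w}, {c | E c t' = w.1} := by
      ext c
      simp
    rw [e]
    exact MeasurableSet.iUnion fun w => h.meas t' w.1
  have h3 : {c | c ∈ N s ∧ br (E c) y ∈ N u} ⊆ N s ∩ {c | u <+: E c t'} := fun c hc =>
    ⟨hc.1, prefix_of_br_mem (h.mono c) (h.inc c) hc.2 hyt hlen⟩
  have h2 : ¬ IsMeagre (N s ∩ {c | u <+: E c t'}) := fun hm => h1 (hm.mono h3)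
  obtain ⟨s', hs, hm⟩ := bp hB h2
  exact ⟨s', t', hs, htt, hm⟩

end PairX

open PairX

theorem pair {p : List Bool} {E : C → List Bool → List Bool} (h : Cr p E) : PairS p E := by
  intro q t hq
  choose q1 v1 hq1 G hGm hGr hGi hGc hGim using fun y => img h y hq
  obtain ⟨y, hy, y', hy', hne, he⟩ := exists_pair t fun y => (q1 y, v1 y)
  have e1 : q1 y' = q1 y := (congrArg Prod.fst he).symm
  have e2 : v1 y' = v1 y := (congrArg Prod.snd he).symm
  -- the images of the small sets
  obtain ⟨W, hW⟩ : ∃ W : List Bool → List Bool → Set C, W = fun s0 s1 =>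
      (fun c => br (E c) y) '' (N s1 ∩ G y) ∩ (fun c => br (E c) y') '' (N s0 ∩ G y') := ⟨_, rfl⟩
  have hI' := hGim y'
  rw [e1, e2] at hI'
  have hcov : N (v1 y) ⊆ (N (v1 y) \ (fun c => br (E c) y) '' (N (q1 y) ∩ G y)) ∪
      ((N (v1 y) \ (fun c => br (E c) y') '' (N (q1 y) ∩ G y')) ∪
        ⋃ x : {x : List Bool × List Bool // q1 y <+: x.1 ∧ q1 y <+: x.2 ∧ Inc x.1 x.2},
          (N (v1 y) ∩ W x.1.1 x.1.2)) := by
    intro w hw
    by_cases h1 : w ∈ (fun c => br (E c) y) '' (N (q1 y) ∩ G y)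
    · by_cases h2 : w ∈ (fun c => br (E c) y') '' (N (q1 y) ∩ G y')
      · right
        right
        obtain ⟨c, ⟨hc1, hc2⟩, hc3⟩ := h1
        obtain ⟨c', ⟨hc1', hc2'⟩, hc3'⟩ := h2
        have hc3 : br (E c) y = w := hc3
        have hc3' : br (E c') y' = w := hc3'
        have hcc : c ≠ c' := by
          rintro rfl
          exact hne (br_inj (h.mono c) (h.inc c) (hc3.trans hc3'.symm))
        obtain ⟨n, hn⟩ := Function.ne_iff.1 hcc
        obtain ⟨m, hm⟩ : ∃ m, m = max (n + 1) (q1 y).length := ⟨_, rfl⟩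
        have hm1 : n < m := by omega
        have hm2 : (q1 y).length ≤ m := by omega
        have hr : res c' m ≠ res c m := fun h' => hn (res_inj h' hm1).symm
        have hinc : Inc (res c' m) (res c m) := by
          constructor
          · intro h'
            exact hr (h'.eq_of_length (by rw [res_length, res_length]))
          · intro h'
            exact hr (h'.eq_of_length (by rw [res_length, res_length])).symm
        rw [Set.mem_iUnion]
        refine ⟨⟨(res c' m, res c m), prefix_of_mem hc1' hm2, prefix_of_mem hc1 hm2, hinc⟩, hw, ?_⟩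
        rw [hW]
        exact ⟨⟨c, ⟨mem_N_res _ _, hc2⟩, hc3⟩, ⟨c', ⟨mem_N_res _ _, hc2'⟩, hc3'⟩⟩
      · exact Or.inr (Or.inl ⟨hw, h2⟩)
    · exact Or.inl ⟨hw, h1⟩
  obtain ⟨x, hx⟩ : ∃ x : {x : List Bool × List Bool // q1 y <+: x.1 ∧ q1 y <+: x.2 ∧ Inc x.1 x.2},
      ¬ IsMeagre (N (v1 y) ∩ W x.1.1 x.1.2) := by
    by_contra hcon
    push Not at hcon
    exact not_meagre_N (v1 y) (((hGim y).union (hI'.union (isMeagre_iUnion hcon))).mono hcov)
  obtain ⟨⟨s0, s1⟩, hs0, hs1, hinc⟩ := x
  have hs0 : q1 y <+: s0 := hs0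
  have hs1 : q1 y <+: s1 := hs1
  have hx : ¬ IsMeagre (N (v1 y) ∩ W s0 s1) := hx
  have hWm : MeasurableSet (W s0 s1) := by
    rw [hW]
    refine MeasurableSet.inter ?_ ?_
    · exact ((measurableSet_N s1).inter (hGm y)).image_of_measurable_injOn
        (br_meas h.meas measurable_const)
        ((hGi y).mono (Set.inter_subset_inter_left _ (N_mono hs1)))
    · refine ((measurableSet_N s0).inter (hGm y')).image_of_measurable_injOn
        (br_meas h.meas measurable_const)
        ((hGi y').mono (Set.inter_subset_inter_left _ (N_mono ?_)))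
      rw [e1]
      exact hs0
  obtain ⟨v, -, hv⟩ := bp hWm hx
  have hpt : ∀ u, v <+: u → ∃ w ∈ N u, w ∈ W s0 s1 := by
    intro u hu
    obtain ⟨w, hw1, hw2⟩ := exists_mem (p := u) hv
    refine ⟨w, hw1, ?_⟩
    by_contra h'
    exact hw2 ⟨N_mono hu hw1, h'⟩
  refine ⟨s0, s1, v, (hq1 y).trans hs0, (hq1 y).trans hs1, hinc, ?_, fun u hu => ?_⟩
  · obtain ⟨w, hw1, hw2⟩ := hpt v (List.prefix_refl v)
    rw [hW] at hw2
    obtain ⟨⟨c, ⟨hc1, hc2⟩, hc3⟩, -⟩ := hw2
    have hc3 : br (E c) y = w := hc3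
    exact acc h hy (hGc y s1 v) hc1 hc2 (by rw [hc3]; exact hw1)
  · obtain ⟨w, hw1, hw2⟩ := hpt u hu
    rw [hW] at hw2
    obtain ⟨-, ⟨c, ⟨hc1, hc2⟩, hc3⟩⟩ := hw2
    have hc3 : br (E c) y' = w := hc3
    exact acc h hy' (hGc y' s0 u) hc1 hc2 (by rw [hc3]; exact hw1)

end Pool.Agent.N612.MS
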