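import Pool.Agent.N612.MS.EX
import Pool.Agent.N612.MS.NG
import Pool.Agent.N612.MS.CRX
import Pool.Agent.N612.MS.PAIR
import Pool.Agent.N612.MS.GOOD
import Pool.Agent.N612.MS.DENSE
import Pool.Agent.N612.MS.FIN

set_option autoImplicit false

/-!
# The main theorem
-/

namespace Pool.Agent.N612.MS

theorem main (p : List Bool) (v : ℕ → Nm) : Forces p Fm.sentence v := by
  refine ⟨forces_ex p v, forces_ng p v, ?_⟩
  by_contra h
  obtain ⟨p', E, hE⟩ := exists_cr h
  exact fin hE fun q hq => dense (pair hE) (good hE) hE.mono hq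

end Pool.Agent.N612.MS
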