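import Pool.Agent.N612.MS.Base

set_option autoImplicit false

/-!
# MS-RED: translation of the forcing of a perfect set of elements with `chi` (helper519)
-/

namespace Pool.Agent.N612.MS

namespace RED

theorem forces_neg {p : List Bool} {φ : Fm} {v : ℕ → Nm} :
    Forces p (Fm.neg φ) v ↔ ∀ q, p <+: q → ¬ Forces q φ v := by
  rw [Forces]

theorem forces_and {p : List Bool} {φ ψ : Fm} {v : ℕ → Nm} :
    Forces p (Fm.and φ ψ) v ↔ Forces p φ v ∧ Forces p ψ v := by
  rw [Forces]

theorem forces_all {p : List Bool} {x : ℕ} {φ : Fm} {v : ℕ → Nm} :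
    Forces p (Fm.all x φ) v ↔ ∀ F : Nm, Forces p φ (Function.update v x F) := by
  rw [Forces]

theorem forces_gr {p : List Bool} {x : ℕ} {v : ℕ → Nm} :
    Forces p (Fm.gr x) v ↔ ∀ q, p <+: q → ∃ q', q <+: q' ∧ ∃ r : C,
      IsMeagre {c | c ∈ N q' ∧ (v x).f c ≠ r} := by
  rw [Forces]

theorem forces_perf {p : List Bool} {x : ℕ} {v : ℕ → Nm} :
    Forces p (Fm.perf x) v ↔ IsMeagre {c | c ∈ N p ∧ ¬ IsPerf ((v x).f c)} := by
  unfold Fm.perf
  rw [Forces]
  exact Iff.rfl

theorem forces_branch {p : List Bool} {x y : ℕ} {v : ℕ → Nm} :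
    Forces p (Fm.branch x y) v ↔ IsMeagre {c | c ∈ N p ∧ ¬ IsBr ((v x).f c) ((v y).f c)} := by
  unfold Fm.branch
  rw [Forces]
  exact Iff.rfl

theorem forces_nd {p : List Bool} {x y : ℕ} {v : ℕ → Nm} :
    Forces p (Fm.nd x y) v ↔ IsMeagre {c | c ∈ N p ∧ ¬ IsND ((v x).f c) ((v y).f c)} := by
  unfold Fm.nd
  rw [Forces]
  exact Iff.rfl

theorem forces_rd {p : List Bool} {x y z : ℕ} {v : ℕ → Nm} :
    Forces p (Fm.rd x y z) v ↔
      IsMeagre {c | c ∈ N p ∧ ¬ IsRd ((v x).f c) ((v y).f c) ((v z).f c)} := by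
  unfold Fm.rd
  rw [Forces]
  exact Iff.rfl

theorem forces_ex {p : List Bool} {x : ℕ} {φ : Fm} {v : ℕ → Nm}
    (h : Forces p (Fm.ex x φ) v) :
    ∃ (F : Nm) (q : List Bool), p <+: q ∧ Forces q φ (Function.update v x F) := by
  unfold Fm.ex at h
  rw [forces_neg] at h
  have h1 := h p (List.prefix_refl p)
  rw [forces_all] at h1
  push Not at h1
  obtain ⟨F, hF⟩ := h1
  rw [forces_neg] at hF
  push Not at hF
  obtain ⟨q, hq, hF⟩ := hF
  exact ⟨F, q, hq, hF⟩

open Classical in
/-- the code of a closed set -/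
noncomputable def cod (K : Set C) : C := fun n =>
  decide (∃ s : List Bool, n = Encodable.encode s ∧ (N s ∩ K).Nonempty)

open Classical in
theorem isND {K : Set C} (hK : IsClosed K) (hK0 : interior K = ∅) {z : C} (hz : z ∈ K) :
    IsND (cod K) z := by
  refine ⟨fun s => ?_, fun s hs => ?_⟩
  · have h1 : (N s ∩ Kᶜ).Nonempty := by
      by_contra h
      rw [Set.not_nonempty_iff_eq_empty] at h
      have h2 : N s ⊆ K := by
        intro c hc
        by_contra hcK
        have : c ∈ N s ∩ Kᶜ := ⟨hc, hcK⟩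
        rw [h] at this
        exact this
      have h3 : N s ⊆ interior K := interior_maximal h2 (isOpen_N s)
      rw [hK0] at h3
      obtain ⟨c, hc⟩ := N_nonempty s
      exact h3 hc
    obtain ⟨q, hq, hqK⟩ := exists_ext hK.isOpen_compl h1
    refine ⟨q, hq, ?_⟩
    refine decide_eq_false ?_
    rintro ⟨s', hs', c, hc1, hc2⟩
    rw [Encodable.encode_injective hs'] at hqK
    exact hqK hc1 hc2
  · exact decide_eq_true ⟨s, rfl, z, hs, hz⟩

theorem isRd_inj {r z c c' : C} (h : IsRd r z c) (h' : IsRd r z c') : c = c' := by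
  funext n
  obtain ⟨s, hs, hr⟩ := h.1 (res c (n + 1)) (mem_N_res c (n + 1))
  have h1 : c' ∈ N (res c (n + 1)) := h'.2 s (res c (n + 1)) hs hr
  have h2 : n < (res c (n + 1)).length := by rw [res_length]; omega
  rw [mem_N.1 h1 n h2, mem_N.1 (mem_N_res c (n + 1)) n h2]

end RED

open RED in
/-- translation of the forcing of a perfect set of elements with `chi` -/
theorem red {p : List Bool} {v : ℕ → Nm}
    (h : ¬ Forces p (Fm.neg (Fm.ex 3 (Fm.and (Fm.perf 3)
      (Fm.all 0 (Fm.imp (Fm.branch 3 0) Fm.chi))))) v) :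
    ∃ (p' : List Bool) (T : C → C), Measurable T ∧ IsMeagre {c | c ∈ N p' ∧ ¬ IsPerf (T c)} ∧
      ∀ x : C → C, Measurable x → IsMeagre {c | c ∈ N p' ∧ ¬ IsBr (T c) (x c)} →
        (∀ K : Set C, IsClosed K → interior K = ∅ → IsMeagre {c | c ∈ N p' ∧ x c ∈ K}) ∧
        ∀ q, p' <+: q → ∃ q', q <+: q' ∧ ∃ G : Set C, G ∈ residual C ∧ Set.InjOn x (N q' ∩ G) := by
  rw [forces_neg] at h
  push Not at h
  obtain ⟨p1, _, h1⟩ := h
  obtain ⟨Tn, p', _, h2⟩ := forces_ex h1
  rw [forces_and] at h2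
  obtain ⟨h3, h4⟩ := h2
  rw [forces_perf] at h3
  refine ⟨p', Tn.f, Tn.hf, ?_, fun x hx hbr => ?_⟩
  · rw [Function.update_self] at h3
    exact h3
  rw [forces_all] at h4
  obtain ⟨w, hw⟩ : ∃ w, w = Function.update (Function.update v 3 Tn) 0 ⟨x, hx⟩ := ⟨_, rfl⟩
  have h5 := h4 ⟨x, hx⟩
  rw [← hw] at h5
  unfold Fm.imp at h5
  rw [forces_neg] at h5
  have w3 : w 3 = Tn := by
    rw [hw, Function.update_of_ne (by norm_num), Function.update_self]
  have w0 : w 0 = ⟨x, hx⟩ := by rw [hw, Function.update_self]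
  -- density of the conditions that force `chi`
  have star : ∀ q, p' <+: q → ∃ q1, q <+: q1 ∧ Forces q1 Fm.chi w := by
    intro q hq
    have h6 := h5 q hq
    rw [forces_and] at h6
    have h7 : Forces q (Fm.branch 3 0) w := by
      rw [forces_branch, w3, w0]
      refine hbr.mono ?_
      intro c hc
      exact ⟨N_mono hq hc.1, hc.2⟩
    have h8 : ¬ Forces q (Fm.neg Fm.chi) w := fun h => h6 ⟨h7, h⟩
    rw [forces_neg] at h8
    push Not at h8
    exact h8
  constructor
  · intro K hK hK0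
    have hB : MeasurableSet {c | x c ∈ K} := hx hK.measurableSet
    have h6 : IsMeagre (N p' ∩ {c | x c ∈ K}) := by
      apply meagre_of_dense
      intro q hq
      obtain ⟨q1, hq1, h7⟩ := star q hq
      refine ⟨q1, hq1, ?_⟩
      by_contra hcon
      obtain ⟨q2, hq2, h8⟩ := bp hB hcon
      unfold Fm.chi at h7
      rw [forces_and] at h7
      have h9 := h7.1
      rw [forces_all] at h9
      have h10 := h9 ⟨fun _ => cod K, measurable_const⟩
      rw [forces_neg] at h10
      have h11 := h10 q2 hq2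
      rw [forces_and] at h11
      apply h11
      constructor
      · rw [forces_gr]
        intro q3 _
        refine ⟨q3, List.prefix_refl q3, cod K, ?_⟩
        rw [Function.update_self]
        have : {c : C | c ∈ N q3 ∧ (fun _ : C => cod K) c ≠ cod K} = ∅ := by
          ext c
          simp
        rw [this]
        exact IsMeagre.empty
      · rw [forces_nd, Function.update_self, Function.update_of_ne (by norm_num), w0]
        refine h8.mono ?_
        intro c hc
        exact ⟨hc.1, fun hcK => hc.2 (isND hK hK0 hcK)⟩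
    exact h6
  · intro q hq
    obtain ⟨q1, hq1, h7⟩ := star q hq
    unfold Fm.chi at h7
    rw [forces_and] at h7
    have h9 := h7.2
    rw [forces_all] at h9
    have h10 := h9 ⟨id, measurable_id⟩
    obtain ⟨Fg, q2, hq2, h11⟩ := forces_ex h10
    rw [forces_and, forces_gr, forces_rd] at h11
    obtain ⟨h12, h13⟩ := h11
    rw [Function.update_self, Function.update_of_ne (by norm_num),
      Function.update_of_ne (by norm_num), Function.update_of_ne (by norm_num),
      Function.update_self, w0] at h13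
    obtain ⟨q3, hq3, r, h14⟩ := h12 q2 (List.prefix_refl q2)
    rw [Function.update_self] at h14
    refine ⟨q3, hq1.trans (hq2.trans hq3), ({c | c ∈ N q3 ∧ Fg.f c ≠ r} ∪
      {c | c ∈ N q2 ∧ ¬ IsRd (Fg.f c) (x c) (id c)})ᶜ, ?_, ?_⟩
    · exact h14.union h13
    · intro c hc c' hc' hcc
      have key : ∀ a, a ∈ N q3 ∩ ({c | c ∈ N q3 ∧ Fg.f c ≠ r} ∪
          {c | c ∈ N q2 ∧ ¬ IsRd (Fg.f c) (x c) (id c)})ᶜ → IsRd r (x a) a := by
        intro a ha
        have ha2 := ha.2
        rw [Set.mem_compl_iff, Set.mem_union, not_or] at ha2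
        have e1 : Fg.f a = r := by
          by_contra hne
          exact ha2.1 ⟨ha.1, hne⟩
        have e2 : IsRd (Fg.f a) (x a) (id a) := by
          by_contra hne
          exact ha2.2 ⟨N_mono hq3 ha.1, hne⟩
        rw [e1] at e2
        exact e2
      have k1 := key c hc
      have k2 := key c' hc'
      rw [← hcc] at k2
      exact isRd_inj k1 k2

end Pool.Agent.N612.MS
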