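import Pool.Agent.N612.MS.Defs

set_option autoImplicit false

/-!
# Auxiliary definitions of the proof
-/

namespace Pool.Agent.N612.MS

/-- The branch of the scheme `e` along `y`. -/
def br (e : List Bool → List Bool) (y : C) : C := fun n => (e (res y (n + 1))).getD n false

/-- The scheme `E` below the condition `p` gives a perfect set of elements with `chi`. -/
structure Cr (p : List Bool) (E : C → List Bool → List Bool) : Prop where
  meas : ∀ t u, MeasurableSet {c | E c t = u}
  mono : ∀ c t b, E c t <+: E c (t ++ [b])
  inc : ∀ c t, ¬ E c (t ++ [false]) <+: E c (t ++ [true]) ∧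
    ¬ E c (t ++ [true]) <+: E c (t ++ [false])
  small : ∀ η : C → C, Measurable η → ∀ K : Set C, IsClosed K → interior K = ∅ →
    IsMeagre {c | c ∈ N p ∧ br (E c) (η c) ∈ K}
  inj : ∀ η : C → C, Measurable η → ∀ q, p <+: q → ∃ q', q <+: q' ∧ ∃ G : Set C, G ∈ residual C ∧
    Set.InjOn (fun c => br (E c) (η c)) (N q' ∩ G)

/-- Incompatible strings. -/
def Inc (s t : List Bool) : Prop := ¬ s <+: t ∧ ¬ t <+: s

/-- `u` can be reached from `t` inside `N s`. -/
def Acc (E : C → List Bool → List Bool) (s t u : List Bool) : Prop :=
  ∃ s' t', s <+: s' ∧ t <+: t' ∧ IsMeagre {c | c ∈ N s' ∧ ¬ u <+: E c t'}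

/-- The Baire space of the block functions. -/
abbrev A : Type := List Bool → ℕ

/-- The string with the number `n`. -/
def blk (n : ℕ) : List Bool := ((Encodable.decode n : Option (List Bool))).getD []

/-- The string `t` followed by the blocks of the proper initial segments of `r`. -/
def et (a : A) (t r : List Bool) : List Bool :=
  t ++ ((List.range r.length).map fun i => blk (a (r.take i))).flatten

/-- The shifted block function. -/
def sh (s : List Bool) (a : A) : A := fun r => a (s ++ r)

/-- The `k` bits of `c` that follow the first `s.length` bits. -/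
def rel (s : List Bool) (c : C) (k : ℕ) : List Bool := (res c (s.length + k)).drop s.length

open Classical in
/-- The value at `c` of the function given by the block function `a` above `s`, starting with
`t` (and completed with zeros if the value is finite). -/
noncomputable def ev (a : A) (s t : List Bool) (c : C) : C :=
  fun n => decide (∃ k, (et a t (rel s c k))[n]? = some true)

/-- The block functions for which all extensions of `v` are reached. -/
def Q (E : C → List Bool → List Bool) (s t v : List Bool) : Set A :=
  {b | ∀ u, v <+: u → ∃ r, IsMeagre {c | c ∈ N (s ++ r) ∧ ¬ u <+: E c (et b t r)}}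

/-- The block functions which give a function that is not injective below `q`. -/
def Pq (E : C → List Bool → List Bool) (q : List Bool) : Set A :=
  {a | ∃ s0 s1 v, q <+: s0 ∧ q <+: s1 ∧ Inc s0 s1 ∧ sh s1 a ∈ Q E s1 (et a [] s1) v ∧
    IsMeagre {c | c ∈ N s0 ∧ ¬ v <+: E c (et a [] s0)}}

/-- The conclusion of PAIR. -/
def PairS (p : List Bool) (E : C → List Bool → List Bool) : Prop :=
  ∀ q t, p <+: q → ∃ s0 s1 v, q <+: s0 ∧ q <+: s1 ∧ Inc s0 s1 ∧ Acc E s1 t v ∧
    ∀ u, v <+: u → Acc E s0 t u

/-- The conclusion of GOOD. -/
def GoodS (p : List Bool) (E : C → List Bool → List Bool) : Prop :=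
  ∀ s t v0, p <+: s → IsMeagre {c | c ∈ N s ∧ ¬ v0 <+: E c t} →
    ∃ v, v0 <+: v ∧ ∃ U : Set A, IsOpen U ∧ U.Nonempty ∧ IsMeagre (U \ Q E s t v)

end Pool.Agent.N612.MS
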